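import Pool.Agent.WD.Comb

/-! # Positivity on the rays from convergence -/

namespace Pool.Agent.WP

open Pool.Agent.WD

variable {β : Type} [Fintype β] [DecidableEq β]

theorem dot_nz_add_smul (h : β → ℤ) (x y : β → ℕ) (z : ℕ) :
    dot h (nz (x + z • y)) = dot h (nz x) + z * dot h (nz y) := by
  unfold dot nz
  rw [Finset.mul_sum, ← Finset.sum_add_distrib]
  refine Finset.sum_congr rfl fun b _ => ?_
  simp only [Pi.add_apply, Pi.smul_apply, smul_eq_mul]
  push_cast
  ring

theorem pos_of_summable (L : (β → ℕ) → ℤ) (F : Finset (β → ℤ)) (N : ℕ) (hPW : PWwith L F N)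
    (hN : Even N) (q : ℝ) (hq : 1 < q)
    (hs : Summable fun M : {M : β → ℕ // ∀ b, Odd (M b)} => q ^ (-L M.1))
    (M : β → ℕ) (hM : M ≠ 0) : 0 < L (N • M) := by
  classical
  by_contra hneg
  push Not at hneg
  have hN0 : 0 < N := hPW.1
  let m₀ : ℕ := 1 + ∑ h ∈ F, (dot h (nz (1 : β → ℕ))).natAbs
  let X : ℕ → β → ℕ := fun m => 1 + (m * N) • M
  have hdot : ∀ h m, dot h (nz (X m)) = dot h (nz (1 : β → ℕ)) + (m * N : ℕ) * dot h (nz M) :=
    fun h m => dot_nz_add_smul h 1 M (m * N)
  have hbd : ∀ h ∈ F, (dot h (nz (1 : β → ℕ))).natAbs < m₀ := by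
    intro h hh
    have := Finset.single_le_sum (f := fun h => (dot h (nz (1 : β → ℕ))).natAbs)
      (fun _ _ => Nat.zero_le _) hh
    simp only [m₀]
    omega
  have hsgn : ∀ h ∈ F, ∀ m, m₀ ≤ m → (0 < dot h (nz M) → 0 < dot h (nz (X m))) ∧
      (dot h (nz M) < 0 → dot h (nz (X m)) < 0) := by
    intro h hh m hm
    have h1 := hbd h hh
    have h2 : (dot h (nz (1 : β → ℕ))).natAbs < m * N := by
      calc _ < m₀ := h1
        _ ≤ m := hm
        _ ≤ m * N := Nat.le_mul_of_pos_right _ hN0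
    have h3 : |dot h (nz (1 : β → ℕ))| < ((m * N : ℕ) : ℤ) := by
      rw [Int.abs_eq_natAbs]
      exact_mod_cast h2
    rw [hdot]
    rw [abs_lt] at h3
    constructor
    · intro h4
      have : ((m * N : ℕ) : ℤ) * 1 ≤ ((m * N : ℕ) : ℤ) * dot h (nz M) :=
        mul_le_mul_of_nonneg_left (by omega) (by positivity)
      linarith
    · intro h4
      have : ((m * N : ℕ) : ℤ) * dot h (nz M) ≤ ((m * N : ℕ) : ℤ) * (-1) :=
        mul_le_mul_of_nonneg_left (by omega) (by positivity)
      linarith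
  obtain ⟨Λ, h1, h2, h3⟩ := hPW.2 (X m₀)
  have hX : ∀ m, m₀ ≤ m → L (X m) = Λ (nz (X m)) := by
    intro m hm
    apply h3
    intro h hh
    rcases lt_trichotomy (dot h (nz M)) 0 with h4 | h4 | h4
    · have h5 := (hsgn h hh m₀ le_rfl).2 h4
      have h6 := (hsgn h hh m hm).2 h4
      exact ⟨fun h7 => absurd h7 (not_le.2 h5), fun _ => h6.le⟩
    · rw [hdot, hdot, h4, mul_zero, mul_zero]
      exact ⟨id, id⟩
    · have h5 := (hsgn h hh m₀ le_rfl).1 h4
      have h6 := (hsgn h hh m hm).1 h4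
      exact ⟨fun _ => h6.le, fun h7 => absurd h7 (not_le.2 h5)⟩
  have hNM : L (N • M) = Λ (nz (N • M)) := by
    apply h3
    intro h hh
    have e : dot h (nz (N • M)) = N * dot h (nz M) := by
      have := dot_nz_add_smul h 0 M N
      rw [zero_add] at this
      rw [this]
      unfold dot nz
      simp
    rw [e]
    constructor
    · intro h5
      have : 0 ≤ dot h (nz M) := by
        by_contra h6
        push Not at h6
        exact absurd h5 (not_le.2 ((hsgn h hh m₀ le_rfl).2 h6))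
      positivity
    · intro h5
      have : dot h (nz M) ≤ 0 := by
        by_contra h6
        push Not at h6
        exact absurd h5 (not_le.2 ((hsgn h hh m₀ le_rfl).1 h6))
      exact mul_nonpos_of_nonneg_of_nonpos (by positivity) this
  have hlin : ∀ j : ℕ, L (X (m₀ + j)) = Λ (nz (X m₀)) + j * L (N • M) := by
    intro j
    rw [hX _ (Nat.le_add_right _ _)]
    induction j with
    | zero => simp
    | succ j ih =>
      have e1 : nz (X (m₀ + (j + 1))) = nz (X (m₀ + j)) + (N : ℤ) • nz M := by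
        funext b
        simp only [X, nz, Pi.add_apply, Pi.smul_apply, Pi.one_apply, smul_eq_mul]
        push_cast
        ring
      have e2 : nz (N • M) = (N : ℤ) • nz M := by
        funext b
        simp only [nz, Pi.smul_apply, smul_eq_mul]
        push_cast
        ring
      rw [e1, h2, ih, ← e2, ← hNM]
      push_cast
      ring
  have hodd : ∀ m b, Odd (X m b) := by
    intro m b
    simp only [X, Pi.add_apply, Pi.one_apply, Pi.smul_apply, smul_eq_mul]
    rw [add_comm]
    exact ((hN.mul_left m).mul_right _).add_one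
  have hinj : Function.Injective fun j : ℕ =>
      (⟨X (m₀ + j), hodd _⟩ : {M : β → ℕ // ∀ b, Odd (M b)}) := by
    intro j j' h
    have h4 : X (m₀ + j) = X (m₀ + j') := congrArg Subtype.val h
    obtain ⟨b, hb⟩ : ∃ b, M b ≠ 0 := by
      by_contra hcon
      push Not at hcon
      exact hM (funext hcon)
    have h5 := congrFun h4 b
    simp only [X, Pi.add_apply, Pi.one_apply, Pi.smul_apply, smul_eq_mul] at h5
    have h6 : (m₀ + j) * N * M b = (m₀ + j') * N * M b := by omega
    have h7 := Nat.eq_of_mul_eq_mul_right (Nat.pos_of_ne_zero hb) h6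
    have h8 := Nat.eq_of_mul_eq_mul_right hN0 h7
    omega
  have h4 := (hs.comp_injective hinj).tendsto_atTop_zero
  have h5 : ∀ j : ℕ, q ^ (-Λ (nz (X m₀))) ≤ ((fun M : {M : β → ℕ // ∀ b, Odd (M b)} =>
      q ^ (-L M.1)) ∘ fun j : ℕ => (⟨X (m₀ + j), hodd _⟩ : {M : β → ℕ // ∀ b, Odd (M b)})) j := by
    intro j
    change q ^ (-Λ (nz (X m₀))) ≤ q ^ (-L (X (m₀ + j)))
    apply zpow_le_zpow_right₀ hq.le
    rw [hlin]
    have : (j : ℤ) * L (N • M) ≤ 0 := mul_nonpos_of_nonneg_of_nonpos (by positivity) hneg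
    linarith
  have h6 : (0 : ℝ) < q ^ (-Λ (nz (X m₀))) := zpow_pos (by linarith) _
  have h7 := ge_of_tendsto' h4 h5
  linarith

end Pool.Agent.WP
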