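import Pool.Agent.WD.Comb

/-! # Threshold functions are piecewise odd quasi-linear -/

namespace Pool.Agent.WP

open Pool.Agent.WD Finset

variable {β : Type} [Fintype β] [DecidableEq β]

/-- the thresholds `x_b / (2 p^e) < i` -/
def Clt (p E : ℕ) (x : β → ℕ) (i : ℕ) : Finset (β × Fin E) :=
  univ.filter fun c => x c.1 < i * (2 * p ^ (c.2 : ℕ))

/-- the thresholds `x_b / (2 p^e) ≤ i` -/
def Cle (p E : ℕ) (x : β → ℕ) (i : ℕ) : Finset (β × Fin E) :=
  univ.filter fun c => x c.1 ≤ i * (2 * p ^ (c.2 : ℕ))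

def mu (p E : ℕ) (lam : Finset (β × Fin E) → ℤ) (x : β → ℕ) : ℤ :=
  ∑ i ∈ (range (tot x + 1)).filter fun i => ¬ p ∣ i, (lam (Clt p E x i) + lam (Cle p E x i))

/-- twice the number of the `i < y / m`, `p ∤ i` (averaged) -/
def Gf (p m : ℕ) (y : ℤ) : ℤ :=
  y / m - (-y) / m - (y / (m * p : ℕ) - (-y) / (m * p : ℕ))

theorem Gf_neg (p m : ℕ) (y : ℤ) : Gf p m (-y) = -Gf p m y := by
  unfold Gf
  rw [neg_neg]
  ring

theorem Gf_add (p m n : ℕ) (hm : 0 < m) (hp : 0 < p) (hn : m * p ∣ n) (y z : ℤ) :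
    Gf p m (y + n * z) = Gf p m y + Gf p m (n * z) := by
  obtain ⟨r, rfl⟩ := hn
  have hm' : (m : ℤ) ≠ 0 := by exact_mod_cast hm.ne'
  have hp' : (p : ℤ) ≠ 0 := by exact_mod_cast hp.ne'
  have hmp' : ((m * p : ℕ) : ℤ) ≠ 0 := by exact_mod_cast (Nat.mul_pos hm hp).ne'
  have e1 : y + ((m * p * r : ℕ) : ℤ) * z = y + (p * r * z) * m := by push_cast; ring
  have e2 : y + ((m * p * r : ℕ) : ℤ) * z = y + (r * z) * (m * p : ℕ) := by push_cast; ring
  have e3 : -(y + ((m * p * r : ℕ) : ℤ) * z) = -y + (-(p * r * z)) * m := by push_cast; ring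
  have e4 : -(y + ((m * p * r : ℕ) : ℤ) * z) = -y + (-(r * z)) * (m * p : ℕ) := by push_cast; ring
  have f1 : ((m * p * r : ℕ) : ℤ) * z = 0 + (p * r * z) * m := by push_cast; ring
  have f2 : ((m * p * r : ℕ) : ℤ) * z = 0 + (r * z) * (m * p : ℕ) := by push_cast; ring
  have f3 : -(((m * p * r : ℕ) : ℤ) * z) = 0 + (-(p * r * z)) * m := by push_cast; ring
  have f4 : -(((m * p * r : ℕ) : ℤ) * z) = 0 + (-(r * z)) * (m * p : ℕ) := by push_cast; ring
  unfold Gf
  have g1 : (y + ((m * p * r : ℕ) : ℤ) * z) / m = y / m + p * r * z := by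
    rw [e1, Int.add_mul_ediv_right _ _ hm']
  have g2 : (y + ((m * p * r : ℕ) : ℤ) * z) / (m * p : ℕ) = y / (m * p : ℕ) + r * z := by
    rw [e2, Int.add_mul_ediv_right _ _ hmp']
  have g3 : (-(y + ((m * p * r : ℕ) : ℤ) * z)) / m = (-y) / m + -(p * r * z) := by
    rw [e3, Int.add_mul_ediv_right _ _ hm']
  have g4 : (-(y + ((m * p * r : ℕ) : ℤ) * z)) / (m * p : ℕ) = (-y) / (m * p : ℕ) + -(r * z) := by
    rw [e4, Int.add_mul_ediv_right _ _ hmp']
  have k1 : (((m * p * r : ℕ) : ℤ) * z) / m = p * r * z := by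
    rw [f1, Int.add_mul_ediv_right _ _ hm', Int.zero_ediv, zero_add]
  have k2 : (((m * p * r : ℕ) : ℤ) * z) / (m * p : ℕ) = r * z := by
    rw [f2, Int.add_mul_ediv_right _ _ hmp', Int.zero_ediv, zero_add]
  have k3 : (-(((m * p * r : ℕ) : ℤ) * z)) / m = -(p * r * z) := by
    rw [f3, Int.add_mul_ediv_right _ _ hm', Int.zero_ediv, zero_add]
  have k4 : (-(((m * p * r : ℕ) : ℤ) * z)) / (m * p : ℕ) = -(r * z) := by
    rw [f4, Int.add_mul_ediv_right _ _ hmp', Int.zero_ediv, zero_add]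
  rw [g1, g2, g3, g4, k1, k2, k3, k4]
  ring

theorem card_le (p m B y : ℕ) (hm : 0 < m) (hB : y < B) :
    (((range B).filter fun i => ¬ p ∣ i).filter fun i => i * m ≤ y).card + y / (m * p) =
      y / m := by
  have h1 : ((range B).filter fun i => 0 < i ∧ i * m ≤ y) = Ioc 0 (y / m) := by
    ext i
    simp only [mem_filter, mem_range, mem_Ioc, Nat.le_div_iff_mul_le hm]
    constructor
    · rintro ⟨_, h⟩; exact h
    · intro h
      refine ⟨?_, h⟩
      have : i * 1 ≤ i * m := Nat.mul_le_mul_left _ hm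
      omega
  have h2 : (((range B).filter fun i => 0 < i ∧ i * m ≤ y).filter fun i => p ∣ i).card =
      y / (m * p) := by
    rw [h1, Nat.Ioc_filter_dvd_card_eq_div, Nat.div_div_eq_div_mul]
  have h3 : ((range B).filter fun i => 0 < i ∧ i * m ≤ y).card = y / m := by
    rw [h1, Nat.card_Ioc, Nat.sub_zero]
  have h4 := Finset.card_filter_add_card_filter_not
    (s := (range B).filter fun i => 0 < i ∧ i * m ≤ y) (fun i => p ∣ i)
  have h5 : (((range B).filter fun i => ¬ p ∣ i).filter fun i => i * m ≤ y) =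
      (((range B).filter fun i => 0 < i ∧ i * m ≤ y).filter fun i => ¬ p ∣ i) := by
    ext i
    simp only [mem_filter, mem_range]
    constructor
    · rintro ⟨⟨h6, h7⟩, h8⟩
      refine ⟨⟨h6, ?_, h8⟩, h7⟩
      rcases Nat.eq_zero_or_pos i with h0 | h0
      · exact absurd (h0 ▸ dvd_zero p) h7
      · exact h0
    · rintro ⟨⟨h6, h7, h8⟩, h9⟩
      exact ⟨⟨h6, h9⟩, h8⟩
  rw [h5]
  omega

theorem sum_ind (p m B y : ℕ) (hm : 0 < m) (hp : 0 < p) (hB : y < B) :
    ∑ i ∈ (range B).filter fun i => ¬ p ∣ i,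
      (((if i * m ≤ y then (1 : ℤ) else 0) + (if i * m < y then 1 else 0))) = Gf p m y := by
  rw [Finset.sum_add_distrib, ← Finset.sum_filter, ← Finset.sum_filter, Finset.sum_const,
    Finset.sum_const]
  have h1 := card_le p m B y hm hB
  unfold Gf
  rcases Nat.eq_zero_or_pos y with h0 | h0
  · subst h0
    have h2 : (((range B).filter fun i => ¬ p ∣ i).filter fun i => i * m < 0) = ∅ := by
      ext i; simp
    rw [h2]
    simp only [Nat.zero_div, Nat.add_zero] at h1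
    rw [h1]
    simp
  · have h2 : (((range B).filter fun i => ¬ p ∣ i).filter fun i => i * m < y) =
        (((range B).filter fun i => ¬ p ∣ i).filter fun i => i * m ≤ y - 1) := by
      ext i
      simp only [mem_filter]
      constructor <;> rintro ⟨h3, h4⟩ <;> exact ⟨h3, by omega⟩
    have h3 := card_le p m B (y - 1) hm (by omega)
    rw [h2]
    have h4 : ∀ n : ℕ, 0 < n → (-(y : ℤ)) / (n : ℤ) = -(((y - 1) / n : ℕ) : ℤ) - 1 := by
      intro n hn
      have hn' : (0 : ℤ) < n := by exact_mod_cast hn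
      rw [Int.ediv_eq_iff_of_pos hn']
      have h5 := Nat.div_add_mod (y - 1) n
      have h6 := Nat.mod_lt (y - 1) hn
      have h7 : ((y - 1 : ℕ) : ℤ) = n * (((y - 1) / n : ℕ) : ℤ) + (((y - 1) % n : ℕ) : ℤ) := by
        exact_mod_cast h5.symm
      have h8 : ((y - 1 : ℕ) : ℤ) = (y : ℤ) - 1 := by omega
      have h9 : (((y - 1) % n : ℕ) : ℤ) < n := by exact_mod_cast h6
      have h10 : (0 : ℤ) ≤ (((y - 1) % n : ℕ) : ℤ) := by positivity
      constructor <;> nlinarith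
    rw [h4 m hm, h4 (m * p) (Nat.mul_pos hm hp), ← Int.natCast_div, ← Int.natCast_div]
    simp only [nsmul_eq_mul, mul_one]
    have h11 : ((y / m : ℕ) : ℤ) =
        ((((range B).filter fun i => ¬ p ∣ i).filter fun i => i * m ≤ y).card : ℤ) +
          ((y / (m * p) : ℕ) : ℤ) := by exact_mod_cast h1.symm
    have h12 : (((y - 1) / m : ℕ) : ℤ) =
        ((((range B).filter fun i => ¬ p ∣ i).filter fun i => i * m ≤ y - 1).card : ℤ) +
          (((y - 1) / (m * p) : ℕ) : ℤ) := by exact_mod_cast h3.symm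
    rw [h11, h12]
    ring

/-- telescoping along a numbering `rk` -/
theorem telescope {ι : Type} [Fintype ι] [DecidableEq ι] (lam : Finset ι → ℤ)
    (hlam : lam univ = 0) (rk : ι ≃ Fin (Fintype.card ι)) (P : ι → Prop) [DecidablePred P]
    (hP : ∀ c c', rk c ≤ rk c' → P c → P c') :
    lam (univ.filter fun c => ¬ P c) =
      ∑ c, (lam (univ.filter fun c' => rk c' < rk c) - lam (univ.filter fun c' => rk c' ≤ rk c)) *
        (if P c then 1 else 0) := by
  obtain ⟨n, hn⟩ : ∃ n, n = Fintype.card ι := ⟨_, rfl⟩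
  let Lm : ℕ → ℤ := fun l => lam (univ.filter fun c' => (rk c' : ℕ) < l)
  have e1 : ∀ c, (lam (univ.filter fun c' => rk c' < rk c) -
      lam (univ.filter fun c' => rk c' ≤ rk c)) = Lm (rk c) - Lm ((rk c : ℕ) + 1) := by
    intro c
    have : (univ.filter fun c' => rk c' ≤ rk c) =
        (univ.filter fun c' => (rk c' : ℕ) < (rk c : ℕ) + 1) := by
      ext c'
      simp only [mem_filter, mem_univ, true_and]
      rw [Nat.lt_succ_iff, Fin.le_def]
    rw [this]
    rfl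
  have e1' : ∑ c, (lam (univ.filter fun c' => rk c' < rk c) -
      lam (univ.filter fun c' => rk c' ≤ rk c)) * (if P c then 1 else 0) =
      ∑ c, (Lm (rk c) - Lm ((rk c : ℕ) + 1)) * (if P c then 1 else 0) :=
    Finset.sum_congr rfl fun c _ => by rw [e1 c]
  rw [e1']
  obtain ⟨r, hr, hr2⟩ : ∃ r ≤ n, ∀ c, P c ↔ r ≤ (rk c : ℕ) := by
    by_cases hex : ∃ l, ∃ c, P c ∧ (rk c : ℕ) = l
    · classical
      refine ⟨Nat.find hex, ?_, fun c => ⟨fun h => Nat.find_min' hex ⟨c, h, rfl⟩, fun h => ?_⟩⟩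
      · obtain ⟨c, _, hc⟩ := Nat.find_spec hex
        rw [← hc, hn]
        exact (rk c).2.le
      · obtain ⟨c₀, h0, hc₀⟩ := Nat.find_spec hex
        refine hP c₀ c ?_ h0
        rw [Fin.le_def, hc₀]
        exact h
    · refine ⟨n, le_rfl, fun c => ⟨fun h => absurd ⟨_, c, h, rfl⟩ hex, fun h => ?_⟩⟩
      exact absurd (rk c).2 (not_lt.2 (hn ▸ h))
  have e2 : (univ.filter fun c => ¬ P c) = univ.filter fun c' => (rk c' : ℕ) < r := by
    ext c
    simp only [mem_filter, mem_univ, true_and]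
    rw [hr2, not_le]
  rw [e2]
  change Lm r = _
  have e3 : ∑ c, (Lm (rk c) - Lm ((rk c : ℕ) + 1)) * (if P c then 1 else 0) =
      ∑ l : Fin (Fintype.card ι), (Lm l - Lm ((l : ℕ) + 1)) *
        (if r ≤ (l : ℕ) then 1 else 0) := by
    rw [← Equiv.sum_comp rk]
    refine Finset.sum_congr rfl fun c _ => ?_
    by_cases h : P c
    · rw [if_pos h, if_pos ((hr2 c).1 h)]
    · rw [if_neg h, if_neg fun h' => h ((hr2 c).2 h')]
  rw [e3, Fin.sum_univ_eq_sum_range (fun l => (Lm l - Lm (l + 1)) * (if r ≤ l then 1 else 0))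
    (Fintype.card ι), ← hn]
  have e4 : ∀ m, r ≤ m → ∑ l ∈ range m, (Lm l - Lm (l + 1)) * (if r ≤ l then 1 else 0) =
      Lm r - Lm m := by
    intro m hm
    induction m, hm using Nat.le_induction with
    | base =>
      rw [sub_self]
      apply Finset.sum_eq_zero
      intro l hl
      rw [if_neg (not_le.2 (mem_range.1 hl)), mul_zero]
    | succ m hm ih =>
      rw [Finset.sum_range_succ, ih, if_pos hm]
      ring
  rw [e4 n hr]
  have : Lm n = 0 := by
    change lam _ = 0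
    rw [← hlam]
    congr 1
    ext c
    simp only [mem_filter, mem_univ, true_and, iff_true, hn]
    exact (rk c).2
  rw [this, sub_zero]

/-- the functionals that compare the thresholds -/
def cmp (p E : ℕ) (cc : (β × Fin E) × (β × Fin E)) : β → ℤ := fun b =>
  (if b = cc.2.1 then (p : ℤ) ^ (cc.1.2 : ℕ) else 0) -
    (if b = cc.1.1 then (p : ℤ) ^ (cc.2.2 : ℕ) else 0)

theorem dot_cmp (p E : ℕ) (c c' : β × Fin E) (x : β → ℕ) :
    dot (cmp p E (c, c')) (nz x) = (p : ℤ) ^ (c.2 : ℕ) * x c'.1 - (p : ℤ) ^ (c'.2 : ℕ) * x c.1 := by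
  unfold dot cmp nz
  simp only [sub_mul, Finset.sum_sub_distrib, ite_mul, zero_mul, Finset.sum_ite_eq', mem_univ,
    if_true]

theorem exists_rk (p E : ℕ) (hp : 0 < p) (x₀ : β → ℕ) :
    ∃ rk : (β × Fin E) ≃ Fin (Fintype.card (β × Fin E)), ∀ c c', rk c ≤ rk c' →
      x₀ c.1 * p ^ (c'.2 : ℕ) ≤ x₀ c'.1 * p ^ (c.2 : ℕ) := by
  classical
  let e := Fintype.equivFin (β × Fin E)
  let T : β × Fin E → ℚ := fun c => (x₀ c.1 : ℚ) / (p : ℚ) ^ (c.2 : ℕ)
  let f : Fin (Fintype.card (β × Fin E)) → ℚ := T ∘ e.symm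
  refine ⟨e.trans (Tuple.sort f).symm, fun c c' h => ?_⟩
  have h1 := Tuple.monotone_sort f h
  have h2 : T c ≤ T c' := by
    simpa only [Function.comp, Equiv.trans_apply, Equiv.apply_symm_apply,
      Equiv.symm_apply_apply, f] using h1
  have hp' : (0 : ℚ) < p := by exact_mod_cast hp
  have h3 : (x₀ c.1 : ℚ) / (p : ℚ) ^ (c.2 : ℕ) ≤ (x₀ c'.1 : ℚ) / (p : ℚ) ^ (c'.2 : ℕ) := h2
  rw [div_le_div_iff₀ (by positivity) (by positivity)] at h3
  exact_mod_cast h3

theorem pw_thr (p E : ℕ) (hp : 0 < p) (lam : Finset (β × Fin E) → ℤ) (hlam : lam univ = 0)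
    (m : β → ℤ) :
    PWwith (fun x => ∑ b, m b * x b - 2 * mu p E lam x) (univ.image (cmp p E))
      (2 * p ^ (E + 1)) := by
  classical
  refine ⟨by positivity, fun x₀ => ?_⟩
  obtain ⟨rk, hrk⟩ := exists_rk (β := β) p E hp x₀
  let co : β × Fin E → ℤ := fun c => lam (univ.filter fun c' => rk c' < rk c) -
    lam (univ.filter fun c' => rk c' ≤ rk c)
  refine ⟨fun y => ∑ b, m b * y b - 2 * ∑ c : β × Fin E, co c * Gf p (2 * p ^ (c.2 : ℕ)) (y c.1),
    fun y => ?_, fun y z => ?_, fun x hx => ?_⟩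
  · simp only [Pi.neg_apply, Gf_neg, mul_neg, Finset.sum_neg_distrib]
    ring
  · have h1 : ∀ c : β × Fin E, Gf p (2 * p ^ (c.2 : ℕ)) ((y + ((2 * p ^ (E + 1) : ℕ) : ℤ) • z) c.1) =
        Gf p (2 * p ^ (c.2 : ℕ)) (y c.1) +
          Gf p (2 * p ^ (c.2 : ℕ)) ((((2 * p ^ (E + 1) : ℕ) : ℤ) • z) c.1) := by
      intro c
      rw [Pi.add_apply, Pi.smul_apply, smul_eq_mul]
      apply Gf_add _ _ _ (by positivity) hp
      rw [mul_assoc, ← pow_succ]
      exact Nat.mul_dvd_mul_left _ (Nat.pow_dvd_pow _ (by have := c.2.2; omega))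
    have h2 : ∑ c : β × Fin E, co c *
        Gf p (2 * p ^ (c.2 : ℕ)) ((y + ((2 * p ^ (E + 1) : ℕ) : ℤ) • z) c.1) =
        ∑ c : β × Fin E, co c * Gf p (2 * p ^ (c.2 : ℕ)) (y c.1) +
        ∑ c : β × Fin E, co c *
          Gf p (2 * p ^ (c.2 : ℕ)) ((((2 * p ^ (E + 1) : ℕ) : ℤ) • z) c.1) := by
      rw [← Finset.sum_add_distrib]
      exact Finset.sum_congr rfl fun c _ => by rw [h1, mul_add]
    have h3 : ∑ b, m b * (y + ((2 * p ^ (E + 1) : ℕ) : ℤ) • z) b =
        ∑ b, m b * y b + ∑ b, m b * (((2 * p ^ (E + 1) : ℕ) : ℤ) • z) b := by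
      rw [← Finset.sum_add_distrib]
      exact Finset.sum_congr rfl fun c _ => by rw [Pi.add_apply, mul_add]
    change ∑ b, m b * (y + ((2 * p ^ (E + 1) : ℕ) : ℤ) • z) b - 2 * ∑ c : β × Fin E, co c *
        Gf p (2 * p ^ (c.2 : ℕ)) ((y + ((2 * p ^ (E + 1) : ℕ) : ℤ) • z) c.1) = _
    rw [h2, h3]
    ring
  · have hx2 : ∀ c c', rk c ≤ rk c' → x c.1 * p ^ (c'.2 : ℕ) ≤ x c'.1 * p ^ (c.2 : ℕ) := by
      intro c c' h
      have h1 := (hx (cmp p E (c, c')) (Finset.mem_image_of_mem _ (mem_univ _))).1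
      rw [dot_cmp, dot_cmp] at h1
      have h2 : (0 : ℤ) ≤ (p : ℤ) ^ (c.2 : ℕ) * x₀ c'.1 - (p : ℤ) ^ (c'.2 : ℕ) * x₀ c.1 := by
        have := hrk c c' h
        have h3 : ((x₀ c.1 * p ^ (c'.2 : ℕ) : ℕ) : ℤ) ≤ ((x₀ c'.1 * p ^ (c.2 : ℕ) : ℕ) : ℤ) := by
          exact_mod_cast this
        push_cast at h3
        linarith
      have h3 := h1 h2
      have h4 : ((x c.1 * p ^ (c'.2 : ℕ) : ℕ) : ℤ) ≤ ((x c'.1 * p ^ (c.2 : ℕ) : ℕ) : ℤ) := by
        push_cast
        linarith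
      exact_mod_cast h4
    change ∑ b, m b * (x b : ℤ) - 2 * mu p E lam x = ∑ b, m b * (nz x) b -
      2 * ∑ c : β × Fin E, co c * Gf p (2 * p ^ (c.2 : ℕ)) (nz x c.1)
    congr 2
    unfold mu
    have key : ∀ i : ℕ, lam (Clt p E x i) + lam (Cle p E x i) = ∑ c : β × Fin E, co c *
        ((if i * (2 * p ^ (c.2 : ℕ)) ≤ x c.1 then (1 : ℤ) else 0) +
          (if i * (2 * p ^ (c.2 : ℕ)) < x c.1 then 1 else 0)) := by
      intro i
      have e1 : Clt p E x i = univ.filter fun c => ¬ (i * (2 * p ^ (c.2 : ℕ)) ≤ x c.1) := by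
        ext c
        simp only [Clt, mem_filter, mem_univ, true_and, not_le]
      have e2 : Cle p E x i = univ.filter fun c => ¬ (i * (2 * p ^ (c.2 : ℕ)) < x c.1) := by
        ext c
        simp only [Cle, mem_filter, mem_univ, true_and, not_lt]
      rw [e1, e2, telescope lam hlam rk (fun c => i * (2 * p ^ (c.2 : ℕ)) ≤ x c.1),
        telescope lam hlam rk (fun c => i * (2 * p ^ (c.2 : ℕ)) < x c.1), ← Finset.sum_add_distrib]
      · exact Finset.sum_congr rfl fun c _ => by ring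
      · intro c c' h h1
        have h2 := hx2 c c' h
        have h3 : 0 < p ^ (c.2 : ℕ) := by positivity
        have h4 : 0 < p ^ (c'.2 : ℕ) := by positivity
        have h5 : i * (2 * p ^ (c'.2 : ℕ)) * p ^ (c.2 : ℕ) < x c'.1 * p ^ (c.2 : ℕ) := by
          calc i * (2 * p ^ (c'.2 : ℕ)) * p ^ (c.2 : ℕ)
              = i * (2 * p ^ (c.2 : ℕ)) * p ^ (c'.2 : ℕ) := by ring
            _ < x c.1 * p ^ (c'.2 : ℕ) := Nat.mul_lt_mul_of_pos_right h1 h4
            _ ≤ _ := h2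
        exact lt_of_mul_lt_mul_right h5 h3.le
      · intro c c' h h1
        have h2 := hx2 c c' h
        have h3 : 0 < p ^ (c.2 : ℕ) := by positivity
        have h5 : i * (2 * p ^ (c'.2 : ℕ)) * p ^ (c.2 : ℕ) ≤ x c'.1 * p ^ (c.2 : ℕ) := by
          calc i * (2 * p ^ (c'.2 : ℕ)) * p ^ (c.2 : ℕ)
              = i * (2 * p ^ (c.2 : ℕ)) * p ^ (c'.2 : ℕ) := by ring
            _ ≤ x c.1 * p ^ (c'.2 : ℕ) := Nat.mul_le_mul_right _ h1
            _ ≤ _ := h2
        exact le_of_mul_le_mul_right h5 h3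
    simp_rw [key]
    rw [Finset.sum_comm]
    refine Finset.sum_congr rfl fun c _ => ?_
    rw [← Finset.mul_sum, sum_ind p (2 * p ^ (c.2 : ℕ)) (tot x + 1) (x c.1) (by positivity) hp]
    · rfl
    · have : x c.1 ≤ tot x := Finset.single_le_sum (f := x) (fun _ _ => Nat.zero_le _) (mem_univ _)
      omega

end Pool.Agent.WP
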