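import Mathlib

/-! # Homomorphisms from finite abelian groups to truncated Witt vectors -/

namespace Pool.Agent.WP

open Finset

variable {p : ℕ} [Fact p.Prime] {N : ℕ} {k : Type} [Field k] [Fintype k] [CharP k p]

theorem coeff_nsmul (x : TruncatedWittVector p N k) (e : ℕ) (i : Fin N) :
    (p ^ e • x).coeff i = if h : e ≤ (i : ℕ) then
      (x.coeff ⟨i - e, by omega⟩) ^ p ^ e else 0 := by
  have h1 : p ^ e • x = WittVector.truncateFun N (x.out * (p : WittVector p k) ^ e) := by
    conv_lhs => rw [← TruncatedWittVector.truncateFun_out x]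
    rw [← WittVector.truncateFun_nsmul]
    congr 1
    rw [nsmul_eq_mul, mul_comm]
    push_cast
    rfl
  rw [h1, WittVector.coeff_truncateFun]
  split_ifs with h
  · obtain ⟨j, hj⟩ := Nat.exists_eq_add_of_le' h
    have h0 : (x.out * (p : WittVector p k) ^ e).coeff (i : ℕ) =
        (x.out * (p : WittVector p k) ^ e).coeff (j + e) := by rw [hj]
    rw [h0, WittVector.mul_pow_charP_coeff_succ]
    have : j < N := by omega
    have h2 := TruncatedWittVector.coeff_out x ⟨j, this⟩
    have h3 : (⟨(i : ℕ) - e, by omega⟩ : Fin N) = ⟨j, this⟩ := by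
      apply Fin.ext
      simp only
      omega
    rw [h3, ← h2]
  · exact WittVector.mul_pow_charP_coeff_zero _ (by omega)

theorem card_ker (e : ℕ) (he : e ≤ N) :
    Nat.card {x : TruncatedWittVector p N k // p ^ e • x = 0} = Fintype.card k ^ e := by
  have h1 : ∀ x : TruncatedWittVector p N k, p ^ e • x = 0 ↔ ∀ j : Fin N, (j : ℕ) + e < N →
      x.coeff j = 0 := by
    intro x
    constructor
    · intro h j hj
      have h2 := coeff_nsmul x e ⟨j + e, hj⟩
      rw [h, TruncatedWittVector.coeff_zero, dif_pos (by simp)] at h2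
      have h3 := pow_eq_zero_iff (pow_ne_zero e (Fact.out : p.Prime).ne_zero) |>.1 h2.symm
      have h4 : (⟨(⟨j + e, hj⟩ : Fin N) - e, by omega⟩ : Fin N) = j := by
        ext; simp
      rw [h4] at h3
      exact h3
    · intro h
      apply TruncatedWittVector.ext
      intro i
      rw [coeff_nsmul, TruncatedWittVector.coeff_zero]
      split_ifs with h2
      · rw [h _ (by simp only; omega), zero_pow (pow_ne_zero e (Fact.out : p.Prime).ne_zero)]
      · rfl
  have e1 : {x : TruncatedWittVector p N k // p ^ e • x = 0} ≃ (Fin e → k) :=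
    { toFun := fun x j => x.1.coeff ⟨j + (N - e), by omega⟩
      invFun := fun y => ⟨TruncatedWittVector.mk p fun i =>
        if h : N - e ≤ (i : ℕ) then y ⟨i - (N - e), by omega⟩ else 0, (h1 _).2 (by
          intro j hj
          rw [TruncatedWittVector.coeff_mk, dif_neg (by omega)])⟩
      left_inv := by
        intro x
        apply Subtype.ext
        apply TruncatedWittVector.ext
        intro i
        rw [TruncatedWittVector.coeff_mk]
        split_ifs with h
        · change x.1.coeff ⟨(i : ℕ) - (N - e) + (N - e), by omega⟩ = x.1.coeff i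
          have h3 : (⟨(i : ℕ) - (N - e) + (N - e), by omega⟩ : Fin N) = i := by
            apply Fin.ext
            simp only
            omega
          rw [h3]
        · exact ((h1 _).1 x.2 i (by omega)).symm
      right_inv := by
        intro y
        funext j
        simp only [TruncatedWittVector.coeff_mk]
        rw [dif_pos (by omega)]
        have h3 : (⟨(j : ℕ) + (N - e) - (N - e), by omega⟩ : Fin e) = j := by
          apply Fin.ext
          simp only
          omega
        rw [h3] }
  rw [Nat.card_congr e1, Nat.card_eq_fintype_card, Fintype.card_fun, Fintype.card_fin]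

theorem card_hom_zmod (e : ℕ) (he : e ≤ N) :
    Nat.card (ZMod (p ^ e) →+ TruncatedWittVector p N k) = Fintype.card k ^ e := by
  rw [← card_ker (p := p) (k := k) e he]
  apply Nat.card_congr
  refine (ZMod.lift (p ^ e)).symm.trans ?_
  refine Equiv.subtypeEquiv (zmultiplesHom _).symm fun f => ?_
  simp only [zmultiplesHom_symm_apply]
  rw [← map_nsmul, nsmul_one]

/-- the length of a finite abelian `p`-group -/
noncomputable def len (p : ℕ) (D : Type) [AddCommGroup D] : ℕ := Nat.log p (Nat.card D)

theorem card_hom (D : Type) [AddCommGroup D] [Finite D] (hD : ∀ x : D, p ^ N • x = 0) :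
    Nat.card (D →+ TruncatedWittVector p N k) = Fintype.card k ^ len p D := by
  obtain ⟨ι, hι, P, hP, e, ⟨φ⟩⟩ := AddCommGroup.equiv_directSum_zmod_of_finite D
  classical
  have h1 : ∀ i, ∃ e', e' ≤ N ∧ P i ^ e i = p ^ e' := by
    intro i
    have h2 : ((p ^ N : ℕ) : ZMod (P i ^ e i)) = 0 := by
      have h3 := hD (φ.symm (DirectSum.of (fun i => ZMod (P i ^ e i)) i 1))
      rw [← map_nsmul, ← map_nsmul, nsmul_one] at h3
      have h4 := (map_eq_zero_iff _ φ.symm.injective).1 h3
      have h5 := congrArg (fun z => z i) h4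
      simpa [DirectSum.of_eq_same] using h5
    rw [ZMod.natCast_eq_zero_iff] at h2
    obtain ⟨e', h3, h4⟩ := (Nat.dvd_prime_pow (Fact.out : p.Prime)).1 h2
    exact ⟨e', h3, h4⟩
  choose e' he' hPe using h1
  have h2 : Nat.card D = p ^ ∑ i, e' i := by
    rw [Nat.card_congr φ.toEquiv, Nat.card_congr (DirectSum.addEquivProd _).toEquiv,
      Nat.card_pi, ← Finset.prod_pow_eq_pow_sum]
    refine Finset.prod_congr rfl fun i _ => ?_
    rw [Nat.card_zmod, hPe]
  have h3 : len p D = ∑ i, e' i := by
    unfold len
    rw [h2, Nat.log_pow (Fact.out : p.Prime).one_lt]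
  rw [h3]
  have h4 : (D →+ TruncatedWittVector p N k) ≃
      ((i : ι) → ZMod (P i ^ e i) →+ TruncatedWittVector p N k) :=
    (AddEquiv.addMonoidHomCongrLeftEquiv φ).trans (DFinsupp.liftAddHom.symm).toEquiv
  rw [Nat.card_congr h4, Nat.card_pi, ← Finset.prod_pow_eq_pow_sum]
  refine Finset.prod_congr rfl fun i _ => ?_
  rw [hPe]
  exact card_hom_zmod (e' i) (he' i)

end Pool.Agent.WP
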