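import Pool.Agent.Helper12.WP.Defs
import Pool.Agent.Helper12.WP.Witt
import Pool.Agent.Helper12.WP.PW

/-! # The number of the torsors with bounded conductors -/

namespace Pool.Agent.WP

open Pool.Agent.WD Finset

variable {p : ℕ} [Fact p.Prime] {N : ℕ} {D : Type} [AddCommGroup D]
  {k : Type} [Field k] {β : Type}

/-- the subgroup generated by `K` and the `p^e ψ_b`, `(b, e) ∈ C` -/
def Kc (p : ℕ) {N : ℕ} (K : AddSubgroup D) (ψ : β → D) (C : Finset (β × Fin N)) : AddSubgroup D :=
  K ⊔ AddSubgroup.closure ((fun c : β × Fin N => p ^ (c.2 : ℕ) • ψ c.1) '' (C : Set (β × Fin N)))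

noncomputable def lamK (p : ℕ) {N : ℕ} (K : AddSubgroup D) (ψ : β → D) (C : Finset (β × Fin N)) :
    ℕ := len p (D ⧸ Kc p K ψ C)

theorem Kc_le_iff (K : AddSubgroup D) (ψ : β → D) (C : Finset (β × Fin N))
    (g : D →+ TruncatedWittVector p N k) :
    Kc p K ψ C ≤ g.ker ↔ (∀ x ∈ K, g x = 0) ∧ ∀ c ∈ C, p ^ (c.2 : ℕ) • g (ψ c.1) = 0 := by
  unfold Kc
  rw [sup_le_iff, AddSubgroup.closure_le]
  apply and_congr
  · exact Iff.rfl
  · constructor
    · intro h c hc
      have := h ⟨c, hc, rfl⟩
      rw [← map_nsmul]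
      exact this
    · rintro h _ ⟨c, hc, rfl⟩
      change g (p ^ (c.2 : ℕ) • ψ c.1) = 0
      rw [map_nsmul]
      exact h c hc

theorem card_constr [Finite D] (hD : ∀ x : D, p ^ N • x = 0) [Fintype k] [CharP k p]
    (K : AddSubgroup D) (ψ : β → D) (C : Finset (β × Fin N)) :
    Nat.card {g : D →+ TruncatedWittVector p N k //
      (∀ x ∈ K, g x = 0) ∧ ∀ c ∈ C, p ^ (c.2 : ℕ) • g (ψ c.1) = 0} =
      Fintype.card k ^ lamK p K ψ C := by
  unfold lamK
  rw [← card_hom (p := p) (N := N) (k := k) (D ⧸ Kc p K ψ C)]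
  · apply Nat.card_congr
    exact
      { toFun := fun g => QuotientAddGroup.lift (Kc p K ψ C) g.1 ((Kc_le_iff K ψ C g.1).2 g.2)
        invFun := fun h => ⟨h.comp (QuotientAddGroup.mk' (Kc p K ψ C)), by
          rw [← Kc_le_iff]
          intro x hx
          change h (QuotientAddGroup.mk' (Kc p K ψ C) x) = 0
          have : QuotientAddGroup.mk' (Kc p K ψ C) x = 0 :=
            (QuotientAddGroup.eq_zero_iff x).2 hx
          rw [this, map_zero]⟩
        left_inv := fun g => by
          apply Subtype.ext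
          ext x
          rfl
        right_inv := fun h => by
          ext x
          rfl }
  · intro x
    induction x using QuotientAddGroup.induction_on with
    | H z =>
      change p ^ N • (QuotientAddGroup.mk' (Kc p K ψ C)) z = 0
      rw [← map_nsmul, hD, map_zero]

theorem sw_le_iff (f : Par p N D k) (ψ : D) (M : ℕ) :
    sw f ψ ≤ M ↔ ∀ i, ∀ e < N, M < i * p ^ e → p ^ e • f.1 i ψ = 0 := by
  classical
  unfold sw
  rw [Finset.sup_le_iff]
  constructor
  · intro h i e he hM
    by_contra hne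
    have h1 : i ∈ f.1.support := by
      rw [Finsupp.mem_support_iff]
      rintro h0
      apply hne
      rw [h0, AddMonoidHom.zero_apply, smul_zero]
    have h2 := h (i, e) (mem_filter.2 ⟨mem_product.2 ⟨h1, mem_range.2 he⟩, hne⟩)
    simp only at h2
    omega
  · rintro h ⟨i, e⟩ hx
    rw [mem_filter, mem_product, mem_range] at hx
    by_contra hcon
    push Not at hcon
    exact hx.2 (h i e hx.1.2 hcon)

theorem Kc_univ_eq_top [Fintype β] (hN : 0 < N) (K : AddSubgroup D) (ψ : β → D)
    (hgen : K ⊔ AddSubgroup.closure (Set.range ψ) = ⊤) :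
    Kc p K ψ (univ : Finset (β × Fin N)) = ⊤ := by
  rw [eq_top_iff, ← hgen]
  unfold Kc
  apply sup_le_sup le_rfl
  apply AddSubgroup.closure_mono
  rintro _ ⟨b, rfl⟩
  exact ⟨(b, ⟨0, hN⟩), by simp, by simp⟩

theorem len_eq_zero_of_subsingleton (D : Type) [AddCommGroup D] [Subsingleton D] :
    len p D = 0 := by
  unfold len
  have : Nat.card D = 1 := Nat.card_eq_one_iff_unique.2 ⟨inferInstance, ⟨0⟩⟩
  rw [this, Nat.log_one_right]

theorem lamK_univ [Fintype β] (hD : ∀ x : D, p ^ N • x = 0) (K : AddSubgroup D) (ψ : β → D)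
    (hgen : K ⊔ AddSubgroup.closure (Set.range ψ) = ⊤) :
    lamK p K ψ (univ : Finset (β × Fin N)) = 0 := by
  rcases Nat.eq_zero_or_pos N with hN | hN
  · have hs : Subsingleton D := by
      constructor
      intro a b
      have ha := hD a
      have hb := hD b
      rw [hN, pow_zero, one_nsmul] at ha hb
      rw [ha, hb]
    have : Subsingleton (D ⧸ Kc p K ψ (univ : Finset (β × Fin N))) :=
      Quotient.instSubsingletonQuotient _
    exact len_eq_zero_of_subsingleton _
  · unfold lamK
    rw [Kc_univ_eq_top hN K ψ hgen]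
    have : Subsingleton (D ⧸ (⊤ : AddSubgroup D)) := QuotientAddGroup.subsingleton_quotient_top
    exact len_eq_zero_of_subsingleton _

theorem card_Par [Fintype β] [Finite D] (hD : ∀ x : D, p ^ N • x = 0) [Fintype k]
    [CharP k p] (K : AddSubgroup D) (ψ : β → D)
    (hgen : K ⊔ AddSubgroup.closure (Set.range ψ) = ⊤) (M : β → ℕ) :
    Nat.card {f : Par p N D k // (∀ i, ∀ x ∈ K, f.1 i x = 0) ∧ ∀ b, sw f (ψ b) ≤ M b} =
      Fintype.card k ^ ∑ i ∈ (range (tot (fun b => 2 * M b + 1) + 1)).filter fun i => ¬ p ∣ i,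
        lamK p K ψ (Clt p N (fun b => 2 * M b + 1) i) := by
  classical
  set x : β → ℕ := fun b => 2 * M b + 1 with hx
  set I := (range (tot x + 1)).filter fun i => ¬ p ∣ i with hI
  have hc : ∀ (f : Par p N D k), ((∀ i, ∀ x ∈ K, f.1 i x = 0) ∧ ∀ b, sw f (ψ b) ≤ M b) ↔
      ∀ i, (∀ x ∈ K, f.1 i x = 0) ∧ ∀ c ∈ Clt p N x i, p ^ (c.2 : ℕ) • f.1 i (ψ c.1) = 0 := by
    intro f
    constructor
    · rintro ⟨h1, h2⟩ i
      refine ⟨h1 i, fun c hc => ?_⟩
      apply (sw_le_iff f (ψ c.1) (M c.1)).1 (h2 c.1) i c.2 c.2.2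
      simp only [Clt, mem_filter, mem_univ, true_and, hx] at hc
      have e1 : i * (2 * p ^ (c.2 : ℕ)) = 2 * (i * p ^ (c.2 : ℕ)) := by ring
      omega
    · intro h
      refine ⟨fun i => (h i).1, fun b => ?_⟩
      rw [sw_le_iff]
      intro i e he hM
      refine (h i).2 (b, ⟨e, he⟩) ?_
      simp only [Clt, mem_filter, mem_univ, true_and, hx]
      have e1 : i * (2 * p ^ e) = 2 * (i * p ^ e) := by ring
      omega
  have hz : ∀ i, i ∉ I → ∀ g : D →+ TruncatedWittVector p N k, (p ∣ i → g = 0) →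
      (∀ x ∈ K, g x = 0) → (∀ c ∈ Clt p N x i, p ^ (c.2 : ℕ) • g (ψ c.1) = 0) → g = 0 := by
    intro i hi g h1 h2 h3
    by_cases hp : p ∣ i
    · exact h1 hp
    · have hi2 : tot x + 1 ≤ i := by
        by_contra hcon
        exact hi (mem_filter.2 ⟨mem_range.2 (not_le.1 hcon), hp⟩)
      have hC : Clt p N x i = univ := by
        ext c
        simp only [Clt, mem_filter, mem_univ, true_and, iff_true]
        have h4 : x c.1 ≤ tot x :=
          Finset.single_le_sum (f := x) (fun _ _ => Nat.zero_le _) (mem_univ _)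
        have h5 : 0 < p ^ (c.2 : ℕ) := pow_pos (Fact.out : p.Prime).pos _
        have h6 : i * 1 ≤ i * (2 * p ^ (c.2 : ℕ)) := Nat.mul_le_mul_left _ (by omega)
        omega
      rcases Nat.eq_zero_or_pos N with hN | hN
      · apply AddMonoidHom.ext
        intro z
        apply TruncatedWittVector.ext
        intro j
        exact absurd j.2 (by omega)
      · have h7 := (Kc_le_iff K ψ (Clt p N x i) g).2 ⟨h2, h3⟩
        rw [hC, Kc_univ_eq_top hN K ψ hgen, top_le_iff] at h7
        ext z
        have : z ∈ g.ker := by rw [h7]; trivial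
        rw [AddMonoidHom.mem_ker] at this
        rw [this]
        rfl
  have e1 : {f : Par p N D k // (∀ i, ∀ x ∈ K, f.1 i x = 0) ∧ ∀ b, sw f (ψ b) ≤ M b} ≃
      ((i : I) → {g : D →+ TruncatedWittVector p N k //
        (∀ x ∈ K, g x = 0) ∧ ∀ c ∈ Clt p N x i, p ^ (c.2 : ℕ) • g (ψ c.1) = 0}) :=
    { toFun := fun f i => ⟨f.1.1 i, (hc f.1).1 f.2 i⟩
      invFun := fun g => ⟨⟨Finsupp.onFinset I (fun i => if h : i ∈ I then (g ⟨i, h⟩).1 else 0)
        (fun i hi => by
          by_contra h
          exact hi (dif_neg h)), fun i hi => by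
          rw [Finsupp.onFinset_apply, dif_neg]
          intro h
          exact (mem_filter.1 h).2 hi⟩, by
        rw [hc]
        intro i
        rw [Finsupp.onFinset_apply]
        by_cases h : i ∈ I
        · rw [dif_pos h]
          exact (g ⟨i, h⟩).2
        · rw [dif_neg h]
          exact ⟨fun _ _ => rfl, fun _ _ => by rw [AddMonoidHom.zero_apply, smul_zero]⟩⟩
      left_inv := fun f => by
        apply Subtype.ext
        apply Subtype.ext
        apply Finsupp.ext
        intro i
        rw [Finsupp.onFinset_apply]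
        by_cases h : i ∈ I
        · rw [dif_pos h]
        · rw [dif_neg h]
          have h1 := (hc f.1).1 f.2 i
          exact (hz i h (f.1.1 i) (f.1.2 i) h1.1 h1.2).symm
      right_inv := fun g => by
        funext i
        apply Subtype.ext
        simp only [Finsupp.onFinset_apply]
        rw [dif_pos i.2] }
  rw [Nat.card_congr e1, Nat.card_pi]
  have h2 : ∀ i : I, Nat.card {g : D →+ TruncatedWittVector p N k //
        (∀ x ∈ K, g x = 0) ∧ ∀ c ∈ Clt p N x i, p ^ (c.2 : ℕ) • g (ψ c.1) = 0} =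
      Fintype.card k ^ lamK p K ψ (Clt p N x i) := fun i => card_constr hD K ψ _
  rw [Finset.prod_congr rfl fun i _ => h2 i, Finset.prod_coe_sort I
    (fun i => Fintype.card k ^ lamK p K ψ (Clt p N x i)), Finset.prod_pow_eq_pow_sum]

end Pool.Agent.WP
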