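import Mathlib

/-!
# MP_827cb6_ag : permutation modules of finite abelian groups, definitions

`G = P × T`, `P` a finite abelian `p`-group with character group `D`, killed by `p ^ N`, and `T` a
finite abelian group of order prime to `p`, killed by `n`.
-/

namespace Pool.Agent.WP

noncomputable section

open scoped ENNReal

section Torsors

variable (p N : ℕ) [Fact p.Prime] (D : Type) [AddCommGroup D] (k : Type) [Field k]

/-- The `P`-torsors over `k((t))` modulo the unramified ones (Artin-Schreier-Witt): finite sums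
`f = ∑ f_i [t^{-i}]`, `i ≥ 1` prime to `p`, `f_i ∈ Hom(D, W_N(k))`. -/
abbrev Par : Type :=
  {f : ℕ →₀ (D →+ TruncatedWittVector p N k) // ∀ i, p ∣ i → f i = 0}

variable {p N D k}

open Classical in
/-- The Swan conductor of the character `ψ` of the torsor `f` (Brylinski): the largest `i p^e`
with `p^e f_i(ψ) ≠ 0`, and `0` if there is none. -/
def sw (f : Par p N D k) (ψ : D) : ℕ :=
  ((f.1.support ×ˢ Finset.range N).filter fun x => p ^ x.2 • (f.1 x.1 ψ) ≠ 0).sup
    fun x => x.1 * p ^ x.2

end Torsors

/-- The module `λ ⊗ k[P / B]` of `P × T`: `dual ≤ D` consists of the characters that are trivial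
on `B ≤ P`, and `lam` is the character `t ↦ ζ^(λ(t))` of `T`, `ζ` a primitive `n`-th root of
unity. -/
structure Blk (D T : Type) [AddCommGroup D] [AddCommGroup T] (n : ℕ) where
  dual : AddSubgroup D
  lam : T →+ ZMod n

section Functions

variable {p N n : ℕ} [Fact p.Prime] {D T : Type} [AddCommGroup D] [AddCommGroup T] {k : Type}
  [Field k]

/-- `dim λ ⊗ k[P / B] = [P : B]` -/
def Blk.dim (b : Blk D T n) : ℕ := Nat.card b.dual

/-- the exponent in `[0, 1)` of the tame element `c` on `λ` -/
def Blk.theta (b : Blk D T n) (c : T) : ℚ := ((b.lam c).val : ℚ) / n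

/-- the number of the `H`-orbits on `P / B`, `H ≤ P` the image of the wild inertia group of `f` -/
def orb (f : Par p N D k) (b : Blk D T n) : ℕ := Nat.card {ψ : D // ψ ∈ b.dual ∧ sw f ψ = 0}

/-- half of the Artin conductor of `k[P / B]` -/
def art (f : Par p N D k) (b : Blk D T n) : ℚ :=
  ∑ᶠ ψ : {ψ : D // ψ ∈ b.dual ∧ sw f ψ ≠ 0}, ((1 : ℚ) + sw f ψ.1) / 2

/-- the value of the `v`-function of the block at the torsor `(f, c)` -/
def vB (f : Par p N D k) (c : T) (b : Blk D T n) : ℚ :=
  art f b + orb f b * Int.fract (((b.dim / orb f b : ℕ) : ℚ) * b.theta c)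

open Classical in
/-- the codimension of the vectors fixed by the inertia group of the torsor `(f, c)` -/
def codimB (f : Par p N D k) (c : T) (b : Blk D T n) : ℚ :=
  if b.lam c = 0 then (b.dim : ℚ) - orb f b else b.dim

variable {m : ℕ} (V : Fin m → Blk D T n)

def dimV : ℕ := ∑ s, (V s).dim

/-- Yasuda's function `v` -/
def vV (f : Par p N D k) (c : T) : ℚ := ∑ s, vB f c (V s)

/-- Yasuda's function `w = codim - v` -/
def wV (f : Par p N D k) (c : T) : ℚ := ∑ s, codimB f c (V s) - vV V f c

variable (p N k)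

/-- the number of points over `k` of the stringy motive `M_st(X)`, `X = V / G` -/
def Mst [Fintype T] [Fintype k] : ℝ≥0∞ :=
  ∑ c : T, ∑' f : Par p N D k, (Fintype.card k : ℝ≥0∞) ^ (((dimV V : ℚ) - vV V f c : ℚ) : ℝ)

/-- the number of points over `k` of the stringy motive `M_st(X)_o` at the origin -/
def Mo [Fintype T] [Fintype k] : ℝ≥0∞ :=
  ∑ c : T, ∑' f : Par p N D k, (Fintype.card k : ℝ≥0∞) ^ ((wV V f c : ℚ) : ℝ)

end Functions

end

end Pool.Agent.WP
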