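import Mathlib

/-! # Products of geometric series -/

namespace Pool.Agent.WP

open Finset
open scoped ENNReal

theorem tsum_fin_prod : ∀ (n : ℕ) (g : Fin n → ℕ → ℝ≥0∞),
    ∑' M : Fin n → ℕ, ∏ b, g b (M b) = ∏ b, ∑' j, g b j := by
  intro n
  induction n with
  | zero =>
    intro g
    rw [tsum_fintype]
    simp
  | succ n ih =>
    intro g
    have h0 : ∑' c : ℕ × (Fin n → ℕ), ∏ b, g b ((Fin.consEquiv fun _ => ℕ) c b) =
        ∑' (a : ℕ) (M : Fin n → ℕ), ∏ b, g b ((Fin.consEquiv fun _ => ℕ) (a, M) b) :=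
      ENNReal.tsum_prod (f := fun a M => ∏ b, g b ((Fin.consEquiv fun _ => ℕ) (a, M) b))
    rw [← (Fin.consEquiv fun _ => ℕ).tsum_eq, h0, Fin.prod_univ_succ,
      ← ih fun b => g b.succ, ← ENNReal.tsum_mul_right]
    refine tsum_congr fun a => ?_
    rw [← ENNReal.tsum_mul_left]
    refine tsum_congr fun M => ?_
    rw [Fin.prod_univ_succ]
    simp [Fin.consEquiv]

theorem tsum_pi_prod {β : Type} [Fintype β] (g : β → ℕ → ℝ≥0∞) :
    ∑' M : β → ℕ, ∏ b, g b (M b) = ∏ b, ∑' j, g b j := by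
  let e := Fintype.equivFin β
  rw [← Equiv.prod_comp e.symm, ← tsum_fin_prod, ← (Equiv.arrowCongr e (Equiv.refl ℕ)).tsum_eq]
  refine tsum_congr fun M => ?_
  rw [← Equiv.prod_comp e.symm]
  rfl

theorem tsum_ge (U : ℝ≥0∞) (s : ℕ) :
    ∑' j, (if s ≤ j then U ^ j else 0) = U ^ s * (1 - U)⁻¹ := by
  rw [← ENNReal.tsum_geometric, ← ENNReal.tsum_mul_left]
  have hinj : Function.Injective fun j : ℕ => s + j := fun a b h => Nat.add_left_cancel h
  rw [← hinj.tsum_eq]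
  · refine tsum_congr fun j => ?_
    rw [if_pos (Nat.le_add_right s j), pow_add]
  · intro j hj
    rw [Function.mem_support] at hj
    by_cases h : s ≤ j
    · exact ⟨j - s, by simp only; omega⟩
    · exact absurd (if_neg h) hj

theorem tsum_ge_pi {β : Type} [Fintype β] (U : β → ℝ≥0∞) (s : β → ℕ) :
    ∑' M : β → ℕ, (if ∀ b, s b ≤ M b then ∏ b, U b ^ M b else 0) =
      (∏ b, U b ^ s b) * ∏ b, (1 - U b)⁻¹ := by
  classical
  have h1 : ∀ M : β → ℕ, (if ∀ b, s b ≤ M b then ∏ b, U b ^ M b else 0) =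
      ∏ b, (if s b ≤ M b then U b ^ M b else 0) := by
    intro M
    by_cases h : ∀ b, s b ≤ M b
    · rw [if_pos h]
      exact Finset.prod_congr rfl fun b _ => (if_pos (h b)).symm
    · rw [if_neg h]
      push Not at h
      obtain ⟨b, hb⟩ := h
      exact (Finset.prod_eq_zero (mem_univ b) (if_neg (not_le.2 hb))).symm
  simp_rw [h1]
  rw [tsum_pi_prod fun b j => if s b ≤ j then U b ^ j else 0, ← Finset.prod_mul_distrib]
  exact Finset.prod_congr rfl fun b _ => tsum_ge (U b) (s b)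

/-- Summation over the upper bounds `M` of `s(f)`. -/
theorem tsum_bound {β F : Type} [Fintype β] (U : β → ℝ≥0∞) (s : F → β → ℕ)
    (A : (β → ℕ) → ℕ) (hA : ∀ M, Nat.card {f : F // ∀ b, s f b ≤ M b} = A M)
    (hA0 : ∀ M, A M ≠ 0) :
    ∑' M : β → ℕ, (A M : ℝ≥0∞) * ∏ b, U b ^ M b =
      (∑' f : F, ∏ b, U b ^ s f b) * ∏ b, (1 - U b)⁻¹ := by
  classical
  have h1 : ∀ M, (A M : ℝ≥0∞) = ∑' f : F, (if ∀ b, s f b ≤ M b then 1 else 0) := by
    intro M
    have hfin : Finite {f : F // ∀ b, s f b ≤ M b} :=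
      Nat.finite_of_card_ne_zero (by rw [hA]; exact hA0 M)
    have hft := Fintype.ofFinite {f : F // ∀ b, s f b ≤ M b}
    have h2 : ∑' f : F, (if ∀ b, s f b ≤ M b then (1 : ℝ≥0∞) else 0) =
        ∑' f : F, Set.indicator {f : F | ∀ b, s f b ≤ M b} (fun _ => 1) f := by
      refine tsum_congr fun f => ?_
      rw [Set.indicator_apply]
      rfl
    rw [h2, ← tsum_subtype {f : F | ∀ b, s f b ≤ M b} (fun _ => (1 : ℝ≥0∞))]
    have h3 : ∑' _ : {f : F | ∀ b, s f b ≤ M b}, (1 : ℝ≥0∞) =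
      ∑' _ : {f : F // ∀ b, s f b ≤ M b}, (1 : ℝ≥0∞) := rfl
    rw [h3, tsum_fintype, Finset.sum_const, Finset.card_univ, ← Nat.card_eq_fintype_card, hA,
      nsmul_eq_mul, mul_one]
  have h4 : ∀ M, (A M : ℝ≥0∞) * ∏ b, U b ^ M b =
      ∑' f : F, (if ∀ b, s f b ≤ M b then ∏ b, U b ^ M b else 0) := by
    intro M
    rw [h1, ← ENNReal.tsum_mul_right]
    refine tsum_congr fun f => ?_
    split_ifs
    · rw [one_mul]
    · rw [zero_mul]
  simp_rw [h4]
  rw [ENNReal.tsum_comm, ← ENNReal.tsum_mul_right]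
  exact tsum_congr fun f => tsum_ge_pi U (s f)

end Pool.Agent.WP
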