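import Pool.Agent.Helper12.WP.Ssum

/-! # Assembly -/

namespace Pool.Agent.WP

open Pool.Agent.WD Finset Polynomial
open scoped ENNReal

variable {p : ℕ} [Fact p.Prime] {N n : ℕ} {D T : Type} [AddCommGroup D] [AddCommGroup T]

/-- `orb` in terms of the kernel -/
noncomputable def orbK (K : AddSubgroup D) (b : Blk D T n) : ℕ :=
  Nat.card {ψ : D // ψ ∈ b.dual ∧ ψ ∈ K}

noncomputable def cntK (K : AddSubgroup D) (b : Blk D T n) : ℕ :=
  Nat.card {ψ : D // ψ ∈ b.dual ∧ ψ ∉ K}

/-- `4 n` times the constant part of `v` -/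
noncomputable def EK (K : AddSubgroup D) (c : T) (b : Blk D T n) : ℕ :=
  2 * n * cntK K b + 4 * orbK K b * ((b.dim / orbK K b) * (b.lam c).val % n)

theorem orb_eq {k : Type} [Field k] (f : Par p N D k) (b : Blk D T n) :
    orb f b = orbK (kerF f) b := by
  unfold orb orbK
  simp only [sw_eq_zero_iff]

theorem orb_add_cnt [Finite D] (K : AddSubgroup D) (b : Blk D T n) :
    orbK K b + cntK K b = b.dim := by
  unfold orbK cntK Blk.dim
  rw [← Nat.card_sum]
  apply Nat.card_congr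
  classical
  exact
    { toFun := fun x => x.elim (fun y => ⟨y.1, y.2.1⟩) (fun y => ⟨y.1, y.2.1⟩)
      invFun := fun x => if h : x.1 ∈ K then Sum.inl ⟨x.1, x.2, h⟩ else Sum.inr ⟨x.1, x.2, h⟩
      left_inv := by
        rintro (⟨y, hy⟩ | ⟨y, hy⟩)
        · simp [hy.2]
        · simp [hy.2]
      right_inv := by
        rintro ⟨x, hx⟩
        by_cases h : x ∈ K <;> simp [h] }

theorem orb_dvd [Finite D] (K : AddSubgroup D) (b : Blk D T n) : orbK K b ∣ b.dim := by
  have h1 : orbK K b = Nat.card (b.dual ⊓ K : AddSubgroup D) := rfl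
  rw [h1]
  exact AddSubgroup.card_dvd_of_le inf_le_left

theorem orb_pos [Finite D] (K : AddSubgroup D) (b : Blk D T n) : 0 < orbK K b := by
  have h1 : orbK K b = Nat.card (b.dual ⊓ K : AddSubgroup D) := rfl
  rw [h1]
  exact Nat.card_pos

theorem card_pow (D : Type) [AddCommGroup D] [Finite D] (hD : ∀ x : D, p ^ N • x = 0) :
    ∃ a, Nat.card D = p ^ a := by
  by_contra hcon
  push Not at hcon
  have h1 : ∃ q : ℕ, q.Prime ∧ q ∣ Nat.card D ∧ q ≠ p := by
    by_contra h2
    push Not at h2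
    have h0 : Nat.card D ≠ 0 := Nat.card_pos.ne'
    have := Nat.eq_prime_pow_of_unique_prime_dvd h0 (p := p) fun {d} hd hdd => h2 d hd hdd
    exact hcon _ this
  obtain ⟨q, hq, hqd, hqp⟩ := h1
  have hqf : Fact q.Prime := ⟨hq⟩
  obtain ⟨y, hy⟩ := exists_prime_addOrderOf_dvd_card' q hqd
  have h3 : addOrderOf y ∣ p ^ N := addOrderOf_dvd_of_nsmul_eq_zero (hD y)
  rw [hy] at h3
  exact hqp ((Nat.prime_dvd_prime_iff_eq hq (Fact.out : p.Prime)).1 (hq.dvd_of_dvd_pow h3))

theorem coprime_div [Finite D] (hD : ∀ x : D, p ^ N • x = 0) (hn : n.Coprime p)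
    (K : AddSubgroup D) (b : Blk D T n) : n.Coprime (b.dim / orbK K b) := by
  obtain ⟨a, ha⟩ := card_pow (p := p) (N := N) b.dual (fun x => by
    apply Subtype.ext
    exact hD x.1)
  have h1 : b.dim / orbK K b ∣ p ^ a := by
    rw [← ha]
    exact Nat.div_dvd_of_dvd (orb_dvd K b)
  exact Nat.Coprime.coprime_dvd_right h1 (hn.pow_right a)

/-- the two residues add up to `n` or `0` -/
theorem mod_add_mod (hn0 : 0 < n) (e : ℕ) (he : n.Coprime e) (v : ZMod n) :
    e * v.val % n + e * (-v).val % n = if v = 0 then 0 else n := by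
  have : NeZero n := ⟨hn0.ne'⟩
  split_ifs with h
  · subst h
    simp
  · have h1 : (-v).val = n - v.val := by
      rw [ZMod.neg_val, if_neg h]
    have h2 : v.val < n := ZMod.val_lt v
    have h3 : v.val ≠ 0 := fun h0 => h ((ZMod.val_eq_zero v).1 h0)
    rw [h1]
    have h4 : n ∣ e * v.val % n + e * (n - v.val) % n := by
      rw [Nat.dvd_iff_mod_eq_zero, Nat.mod_add_mod, Nat.add_mod_mod, ← mul_add,
        Nat.add_sub_cancel' h2.le, Nat.mul_mod_left]
    have h5 : 0 < e * v.val % n := by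
      rw [Nat.pos_iff_ne_zero]
      intro h0
      have h6 : n ∣ e * v.val := Nat.dvd_of_mod_eq_zero h0
      have h7 := he.dvd_of_dvd_mul_left h6
      exact absurd (Nat.le_of_dvd (Nat.pos_of_ne_zero h3) h7) (not_le.2 h2)
    have h8 : e * v.val % n < n := Nat.mod_lt _ hn0
    have h9 : e * (n - v.val) % n < n := Nat.mod_lt _ hn0
    obtain ⟨t, ht⟩ := h4
    have h10 : t = 1 := by
      rcases t with _ | _ | t
      · omega
      · rfl
      · exfalso
        have : n * (t + 1 + 1) = n * t + 2 * n := by ring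
        rw [this] at ht
        have h11 : 0 ≤ n * t := Nat.zero_le _
        omega
    rw [ht, h10, mul_one]

theorem EK_add [Finite D] (hD : ∀ x : D, p ^ N • x = 0) (hn : n.Coprime p) (hn0 : 0 < n)
    {k : Type} [Field k] (f : Par p N D k) (c : T) (b : Blk D T n) :
    (4 * n : ℚ) * codimB f c b = EK (kerF f) c b + EK (kerF f) (-c) b := by
  have h1 := mod_add_mod hn0 (b.dim / orbK (kerF f) b) (coprime_div hD hn _ b) (b.lam c)
  have h2 := orb_add_cnt (kerF f) b
  have h2' : (b.dim : ℚ) = orbK (kerF f) b + cntK (kerF f) b := by exact_mod_cast h2.symm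
  unfold codimB EK
  rw [orb_eq, map_neg, h2']
  have h3 : ((b.dim / orbK (kerF f) b * (b.lam c).val % n : ℕ) : ℚ) +
      ((b.dim / orbK (kerF f) b * (-b.lam c).val % n : ℕ) : ℚ) =
      if b.lam c = 0 then 0 else n := by
    rw [← Nat.cast_add, h1]
  push_cast at h3 ⊢
  split_ifs at h3 ⊢ with h4
  · linear_combination (-4 * (orbK (kerF f) b : ℚ)) * h3
  · linear_combination (-4 * (orbK (kerF f) b : ℚ)) * h3

open Classical in
theorem art_eq [Fintype D] {k : Type} [Field k] (f : Par p N D k) (b : Blk D T n) :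
    art f b = ((cntK (kerF f) b : ℚ) + ∑ ψ : D, if ψ ∈ b.dual then (sw f ψ : ℚ) else 0) / 2 := by
  unfold art cntK
  rw [finsum_eq_sum_of_fintype, Nat.card_eq_fintype_card]
  have h1 : (Fintype.card {ψ : D // ψ ∈ b.dual ∧ ψ ∉ kerF f} : ℚ) =
      ∑ ψ : D, if ψ ∈ b.dual ∧ sw f ψ ≠ 0 then (1 : ℚ) else 0 := by
    rw [Fintype.card_subtype, Finset.sum_boole]
    congr 3
    ext ψ
    rw [ne_eq, sw_eq_zero_iff]
  have h2 : ∑ ψ : {ψ : D // ψ ∈ b.dual ∧ sw f ψ ≠ 0}, ((1 : ℚ) + sw f ψ.1) / 2 =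
      ∑ ψ : D, if ψ ∈ b.dual ∧ sw f ψ ≠ 0 then ((1 : ℚ) + sw f ψ) / 2 else 0 := by
    rw [← Finset.sum_filter]
    exact (Finset.sum_subtype (univ.filter fun ψ : D => ψ ∈ b.dual ∧ sw f ψ ≠ 0)
      (fun ψ => by rw [mem_filter]; exact ⟨fun h => h.2, fun h => ⟨mem_univ _, h⟩⟩)
      (fun ψ => ((1 : ℚ) + sw f ψ) / 2)).symm
  rw [h1, h2, ← Finset.sum_add_distrib, Finset.sum_div]
  refine Finset.sum_congr rfl fun ψ _ => ?_
  by_cases h3 : ψ ∈ b.dual <;> by_cases h4 : sw f ψ = 0 <;> simp [h3, h4]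

/-- the multiplicity of the character `ψ` -/
noncomputable def mult {m : ℕ} (V : Fin m → Blk D T n) (ψ : D) : ℕ :=
  Nat.card {s : Fin m // ψ ∈ (V s).dual}

theorem vV_eq [Fintype D] (hn0 : 0 < n) {m : ℕ} (V : Fin m → Blk D T n) {k : Type} [Field k]
    (f : Par p N D k) (c : T) :
    vV V f c = (∑ s, EK (kerF f) c (V s) : ℕ) / (4 * n : ℚ) +
      (∑ ψ : D, (mult V ψ : ℤ) * sw f ψ : ℤ) / (2 : ℚ) := by
  classical
  have hn : (n : ℚ) ≠ 0 := by exact_mod_cast hn0.ne'
  have h1 : ∀ s, vB f c (V s) = (EK (kerF f) c (V s) : ℚ) / (4 * n : ℚ) +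
      (∑ ψ : D, if ψ ∈ (V s).dual then (sw f ψ : ℚ) else 0) / 2 := by
    intro s
    unfold vB EK
    rw [art_eq, orb_eq]
    unfold Blk.theta
    rw [← mul_div_assoc, ← Nat.cast_mul, Int.fract_div_natCast_eq_div_natCast_mod]
    push_cast
    field_simp
    ring
  unfold vV
  rw [Finset.sum_congr rfl fun s _ => h1 s, Finset.sum_add_distrib, ← Finset.sum_div,
    ← Finset.sum_div]
  have h2 : ∑ s, ∑ ψ : D, (if ψ ∈ (V s).dual then (sw f ψ : ℚ) else 0) =
      ∑ ψ : D, (mult V ψ : ℚ) * sw f ψ := by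
    rw [Finset.sum_comm]
    refine Finset.sum_congr rfl fun ψ _ => ?_
    unfold mult
    rw [Nat.card_eq_fintype_card, Fintype.card_subtype, ← Finset.sum_filter, Finset.sum_const,
      nsmul_eq_mul]
  rw [h2]
  push_cast
  rfl

/-- `q^(1/(4n))` -/
noncomputable def yk (n : ℕ) (k : Type) [Fintype k] : ℝ :=
  (Fintype.card k : ℝ) ^ (1 / (4 * n : ℝ))

theorem yk_pow (hn0 : 0 < n) (k : Type) [Field k] [Fintype k] : yk n k ^ n = zk k := by
  have : (n : ℝ) ≠ 0 := by exact_mod_cast hn0.ne'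
  unfold yk zk
  rw [← Real.rpow_natCast, ← Real.rpow_mul (by positivity)]
  congr 1
  field_simp

theorem one_lt_yk (hn0 : 0 < n) (k : Type) [Field k] [Fintype k] : 1 < yk n k := by
  unfold yk
  apply Real.one_lt_rpow
  · exact_mod_cast Fintype.one_lt_card
  · positivity

theorem rpow_eq (hn0 : 0 < n) (k : Type) [Field k] [Fintype k] (E S : ℤ) (x : ℝ)
    (hx : x = (E : ℝ) / (4 * n) - (S : ℝ) / 2) :
    (Fintype.card k : ℝ≥0∞) ^ x =
      ENNReal.ofReal (yk n k ^ E) * ENNReal.ofReal (zk k ^ (-(2 * S))) := by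
  have hq : (0 : ℝ) < Fintype.card k := by exact_mod_cast Fintype.card_pos
  have hn' : (n : ℝ) ≠ 0 := by exact_mod_cast hn0.ne'
  rw [← ENNReal.ofReal_mul (zpow_nonneg (by linarith [one_lt_yk hn0 k]) _),
    ← ENNReal.ofReal_natCast, ENNReal.ofReal_rpow_of_pos hq]
  congr 1
  unfold yk zk
  rw [← Real.rpow_intCast, ← Real.rpow_intCast, ← Real.rpow_mul hq.le, ← Real.rpow_mul hq.le,
    ← Real.rpow_add hq, hx]
  congr 1
  push_cast
  field_simp
  ring

open Classical in
/-- the sum over the torsors, arranged by their kernels -/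
theorem sum_torsors [Fintype D] [Fintype (AddSubgroup D)] (hn0 : 0 < n) {m : ℕ}
    (V : Fin m → Blk D T n)
    (k : Type) [Field k] [Fintype k] (e : Par p N D k → ℚ) (E : AddSubgroup D → ℤ)
    (he : ∀ f, e f = (E (kerF f) : ℚ) / (4 * n) -
      (∑ ψ : D, (mult V ψ : ℤ) * sw f ψ : ℤ) / (2 : ℚ)) :
    ∑' f : Par p N D k, (Fintype.card k : ℝ≥0∞) ^ ((e f : ℚ) : ℝ) =
      ∑ K : AddSubgroup D, ENNReal.ofReal (yk n k ^ E K) * SK p N (mult V) K k := by
  have h1 : ∀ f : Par p N D k, (Fintype.card k : ℝ≥0∞) ^ ((e f : ℚ) : ℝ) =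
      ∑ K : AddSubgroup D, ENNReal.ofReal (yk n k ^ E K) *
        (if kerF f = K then wt (mult V) f else 0) := by
    intro f
    rw [Finset.sum_eq_single (kerF f)]
    · rw [if_pos rfl]
      unfold wt
      apply rpow_eq hn0
      rw [he]
      push_cast
      ring
    · intro K' _ hK'
      rw [if_neg (Ne.symm hK'), mul_zero]
    · intro h
      exact absurd (mem_univ _) h
  simp_rw [h1]
  rw [Summable.tsum_finsetSum fun _ _ => ENNReal.summable]
  refine Finset.sum_congr rfl fun K _ => ?_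
  rw [ENNReal.tsum_mul_left]
  rfl

theorem Dual.comp_pow {F G : ℝ → ℝ} (h : Dual F G) (hn0 : 0 < n) :
    Dual (fun y => F (y ^ n)) (fun y => G (y ^ n)) := by
  obtain ⟨A, B, h1, h2⟩ := h
  refine ⟨A.comp (X ^ n), B.comp (X ^ n), fun x hx hx1 => ?_, fun q hq => ?_⟩
  · rw [aeval_comp, map_pow, aeval_X]
    apply h1
    · positivity
    · intro h3
      exact hx1 ((pow_eq_one_iff_of_nonneg hx.le hn0.ne').1 h3)
  · have h3 := h2 (q ^ n) (one_lt_pow₀ hq hn0.ne')
    simp only [aeval_comp, map_pow, aeval_X, inv_pow] at h3 ⊢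
    exact h3

theorem main (hD : ∀ x : D, p ^ N • x = 0) (hn : n.Coprime p) [Fintype D] [Fintype T] {m : ℕ}
    (V : Fin m → Blk D T n)
    (hfin : ∃ (k : Type) (_ : Field k) (_ : Fintype k) (_ : CharP k p), Mst p N k V ≠ ⊤) :
    ∃ A B : ℤ[X], (∀ x : ℝ, 0 < x → x ≠ 1 → aeval x B ≠ 0) ∧
      ∀ (k : Type) [Field k] [Fintype k] [CharP k p],
        Mst p N k V = ENNReal.ofReal (aeval (yk n k) A / aeval (yk n k) B) ∧
        Mo p N k V = ENNReal.ofReal ((Fintype.card k : ℝ) ^ dimV V *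
          (aeval (yk n k)⁻¹ A / aeval (yk n k)⁻¹ B)) := by
  classical
  have hft : Fintype (AddSubgroup D) := Fintype.ofFinite _
  have hn0 : 0 < n := by
    rcases Nat.eq_zero_or_pos n with h | h
    · rw [h, Nat.coprime_zero_left] at hn
      exact absurd hn (Fact.out : p.Prime).one_lt.ne'
    · exact h
  have hnq : (n : ℚ) ≠ 0 := by exact_mod_cast hn0.ne'
  let b : T → AddSubgroup D → ℤ := fun c K => ((∑ s, EK K c (V s) : ℕ) : ℤ)
  -- the first sum
  have hM : ∀ (k : Type) [Field k] [Fintype k] [CharP k p], Mst p N k V =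
      ∑ c : T, ∑ K : AddSubgroup D,
        ENNReal.ofReal (yk n k ^ (4 * n * dimV V - b c K)) * SK p N (mult V) K k := by
    intro k _ _ _
    unfold Mst
    refine Finset.sum_congr rfl fun c _ => ?_
    apply sum_torsors hn0 V k (fun f => (dimV V : ℚ) - vV V f c)
      (fun K => 4 * n * dimV V - b c K)
    intro f
    rw [vV_eq hn0]
    simp only [b]
    push_cast
    field_simp
    ring
  have hMo : ∀ (k : Type) [Field k] [Fintype k] [CharP k p], Mo p N k V =
      ∑ c : T, ∑ K : AddSubgroup D,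
        ENNReal.ofReal (yk n k ^ (b (-c) K)) * SK p N (mult V) K k := by
    intro k _ _ _
    unfold Mo
    refine Finset.sum_congr rfl fun c _ => ?_
    apply sum_torsors hn0 V k (fun f => wV V f c) (fun K => b (-c) K)
    intro f
    unfold wV
    rw [vV_eq hn0]
    have h1 : ∑ s, codimB f c (V s) =
        ((∑ s, EK (kerF f) c (V s) : ℕ) : ℚ) / (4 * n) +
        ((∑ s, EK (kerF f) (-c) (V s) : ℕ) : ℚ) / (4 * n) := by
      have h2 : ∀ s, codimB f c (V s) = (EK (kerF f) c (V s) : ℚ) / (4 * n) +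
          (EK (kerF f) (-c) (V s) : ℚ) / (4 * n) := by
        intro s
        have h3 := EK_add hD hn hn0 f c (V s)
        field_simp
        linarith
      rw [Finset.sum_congr rfl fun s _ => h2 s, Finset.sum_add_distrib, ← Finset.sum_div,
        ← Finset.sum_div]
      push_cast
      rfl
    rw [h1]
    simp only [b]
    push_cast
    ring
  -- finiteness of the pieces
  have hfin' : ∃ (k : Type) (_ : Field k) (_ : Fintype k) (_ : CharP k p),
      ∀ K, SK p N (mult V) K k ≠ ⊤ := by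
    obtain ⟨k, i1, i2, i3, hk⟩ := hfin
    refine ⟨k, i1, i2, i3, fun K hK => hk ?_⟩
    rw [hM k, eq_top_iff]
    have h1 : ENNReal.ofReal (yk n k ^ (4 * n * dimV V - b 0 K)) * SK p N (mult V) K k = ⊤ := by
      rw [hK]
      apply ENNReal.mul_top
      have := zpow_pos (show 0 < yk n k by linarith [one_lt_yk hn0 k]) (4 * n * dimV V - b 0 K)
      rw [ne_eq, ENNReal.ofReal_eq_zero, not_le]
      exact this
    calc (⊤ : ℝ≥0∞) = _ := h1.symm
      _ ≤ ∑ K : AddSubgroup D,
        ENNReal.ofReal (yk n k ^ (4 * n * dimV V - b 0 K)) * SK p N (mult V) K k :=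
          Finset.single_le_sum (f := fun K => ENNReal.ofReal (yk n k ^ (4 * n * dimV V - b 0 K)) *
            SK p N (mult V) K k) (fun _ _ => bot_le) (mem_univ K)
      _ ≤ _ := Finset.single_le_sum (f := fun c => ∑ K : AddSubgroup D,
        ENNReal.ofReal (yk n k ^ (4 * n * dimV V - b c K)) * SK p N (mult V) K k)
          (fun _ _ => bot_le) (mem_univ (0 : T))
  choose s hs1 hs2 using fun K => SK_dual hD (mult V) hfin' K
  have hdual : Dual
      (fun y => ∑ c : T, ∑ K : AddSubgroup D, y ^ (4 * n * dimV V - b c K) * s K (y ^ n))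
      (fun y => ∑ c : T, ∑ K : AddSubgroup D, y ^ (-(4 * n * dimV V - b c K)) * s K (y ^ n)) :=
    Dual.sum _ _ _ fun c _ => Dual.sum _ _ _ fun K _ =>
      (Dual.zpow _).mul (Dual.comp_pow (hs1 K) hn0)
  obtain ⟨A, B, hB, hAB⟩ := hdual
  refine ⟨A, B, hB, fun k _ _ _ => ?_⟩
  have hy := one_lt_yk hn0 k
  have hy0 : 0 < yk n k := by linarith
  obtain ⟨hA1, hA2⟩ := hAB _ hy
  have hS : ∀ K, SK p N (mult V) K k = ENNReal.ofReal (s K (yk n k ^ n)) := by
    intro K
    rw [yk_pow hn0, ← (hs2 K k).2, ENNReal.ofReal_toReal (hs2 K k).1]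
  have hS0 : ∀ K, 0 ≤ s K (yk n k ^ n) := by
    intro K
    rw [yk_pow hn0, ← (hs2 K k).2]
    exact ENNReal.toReal_nonneg
  constructor
  · rw [← hA1, hM k, ENNReal.ofReal_sum_of_nonneg]
    · refine Finset.sum_congr rfl fun c _ => ?_
      rw [ENNReal.ofReal_sum_of_nonneg]
      · refine Finset.sum_congr rfl fun K _ => ?_
        rw [hS, ENNReal.ofReal_mul (zpow_nonneg hy0.le _)]
      · exact fun K _ => mul_nonneg (zpow_nonneg hy0.le _) (hS0 K)
    · exact fun c _ => Finset.sum_nonneg fun K _ => mul_nonneg (zpow_nonneg hy0.le _) (hS0 K)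
  · rw [← hA2, hMo k]
    have hq : (Fintype.card k : ℝ) ^ dimV V = yk n k ^ (4 * n * dimV V : ℤ) := by
      have h1 : yk n k ^ (4 * n) = Fintype.card k := by
        rw [mul_comm, pow_mul, yk_pow hn0, zk_pow_four]
      rw [← h1, ← pow_mul, ← zpow_natCast]
      push_cast
      rfl
    rw [hq, Finset.mul_sum, ← Equiv.sum_comp (Equiv.neg T), ENNReal.ofReal_sum_of_nonneg]
    · refine Finset.sum_congr rfl fun c _ => ?_
      rw [Finset.mul_sum, ENNReal.ofReal_sum_of_nonneg]
      · refine Finset.sum_congr rfl fun K _ => ?_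
        rw [hS, ← ENNReal.ofReal_mul (zpow_nonneg hy0.le _), ← mul_assoc,
          ← zpow_add₀ hy0.ne']
        congr 3
        simp only [Equiv.neg_apply, neg_neg]
        ring
      · exact fun K _ => mul_nonneg (zpow_nonneg hy0.le _)
          (mul_nonneg (zpow_nonneg hy0.le _) (hS0 K))
    · intro c _
      exact mul_nonneg (zpow_nonneg hy0.le _)
        (Finset.sum_nonneg fun K _ => mul_nonneg (zpow_nonneg hy0.le _) (hS0 K))

end Pool.Agent.WP
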