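import Pool.Agent.WD.D5

/-! # Reciprocity for the odd vectors -/

namespace Pool.Agent.WP

open Pool.Agent.WD

variable {β : Type} [Fintype β] [DecidableEq β]

/-- double the coordinates in `S` -/
def dil (S : Finset β) (M : β → ℕ) : β → ℕ := fun b => if b ∈ S then 2 * M b else M b

def dilZ (S : Finset β) (x : β → ℤ) : β → ℤ := fun b => if b ∈ S then 2 * x b else x b

theorem dil_injective (S : Finset β) : Function.Injective (dil S) := by
  intro M M' h
  funext b
  have := congrFun h b
  unfold dil at this
  by_cases hb : b ∈ S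
  · simp only [hb, if_true] at this
    omega
  · simpa only [hb, if_false] using this

theorem nz_dil (S : Finset β) (M : β → ℕ) : nz (dil S M) = dilZ S (nz M) := by
  funext b
  unfold nz dil dilZ
  by_cases hb : b ∈ S <;> simp [hb]

theorem dot_dilZ (S : Finset β) (h : β → ℤ) (x : β → ℤ) : dot h (dilZ S x) = dot (dilZ S h) x := by
  unfold dot dilZ
  refine Finset.sum_congr rfl fun b _ => ?_
  by_cases hb : b ∈ S
  · simp only [hb, if_true]; ring
  · simp only [hb, if_false]

theorem dil_smul (S : Finset β) (N : ℕ) (M : β → ℕ) : dil S (N • M) = N • dil S M := by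
  funext b
  unfold dil
  by_cases hb : b ∈ S
  · simp only [hb, if_true, Pi.smul_apply, smul_eq_mul]; ring
  · simp only [hb, if_false, Pi.smul_apply, smul_eq_mul]

theorem pw_dil (L : (β → ℕ) → ℤ) (F : Finset (β → ℤ)) (N : ℕ) (hPW : PWwith L F N)
    (hpos : ∀ M : β → ℕ, M ≠ 0 → 0 < L (N • M)) (S : Finset β) :
    PWpos (fun M => L (dil S M)) := by
  classical
  refine ⟨F.image (dilZ S), N, ⟨hPW.1, fun x₀ => ?_⟩, fun M hM => ?_⟩
  · obtain ⟨Λ, h1, h2, h3⟩ := hPW.2 (dil S x₀)
    refine ⟨fun x => Λ (dilZ S x), fun x => ?_, fun x y => ?_, fun M hM => ?_⟩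
    · change Λ (dilZ S (-x)) = -Λ (dilZ S x)
      rw [← h1]
      congr 1
      funext b
      unfold dilZ
      by_cases hb : b ∈ S <;> simp [hb]
    · have e1 : dilZ S (x + (N : ℤ) • y) = dilZ S x + (N : ℤ) • dilZ S y := by
        funext b
        unfold dilZ
        by_cases hb : b ∈ S
        · simp only [hb, if_true, Pi.add_apply, Pi.smul_apply, smul_eq_mul]; ring
        · simp only [hb, if_false, Pi.add_apply, Pi.smul_apply, smul_eq_mul]
      have e2 : dilZ S ((N : ℤ) • y) = (N : ℤ) • dilZ S y := by
        funext b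
        unfold dilZ
        by_cases hb : b ∈ S
        · simp only [hb, if_true, Pi.smul_apply, smul_eq_mul]; ring
        · simp only [hb, if_false, Pi.smul_apply, smul_eq_mul]
      change Λ (dilZ S (x + (N : ℤ) • y)) = Λ (dilZ S x) + Λ (dilZ S ((N : ℤ) • y))
      rw [e1, e2, h2]
    · change L (dil S M) = Λ (dilZ S (nz M))
      rw [← nz_dil]
      apply h3
      intro h hh
      have := hM (dilZ S h) (Finset.mem_image_of_mem _ hh)
      rw [← dot_dilZ, ← dot_dilZ, ← nz_dil, ← nz_dil] at this
      exact this
  · change 0 < L (dil S (N • M))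
    rw [dil_smul]
    apply hpos
    intro h
    apply hM
    funext b
    have := congrFun h b
    unfold dil at this
    by_cases hb : b ∈ S
    · simp only [hb, if_true, Pi.zero_apply] at this ⊢
      omega
    · simpa only [hb, if_false] using this

/-- Sum over the vectors all of whose coordinates are odd. -/
theorem odd_reciprocity (L : (β → ℕ) → ℤ) (F : Finset (β → ℤ)) (N : ℕ) (hPW : PWwith L F N)
    (hpos : ∀ M : β → ℕ, M ≠ 0 → 0 < L (N • M)) :
    ∃ f g : ℝ → ℝ, Dual f g ∧ ∀ q : ℝ, 1 < q →
      HasSum (fun M : {M : β → ℕ // ∀ b, Odd (M b)} => q ^ (-L M.1)) (f q) ∧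
      f q = (-1) ^ Fintype.card β * g q := by
  classical
  choose f g hfg hs using fun S : Finset β => reciprocity _ (pw_dil L F N hPW hpos S)
  refine ⟨fun q => ∑ S : Finset β, (((-1) ^ S.card : ℤ) : ℝ) * f S q,
    fun q => ∑ S : Finset β, (((-1) ^ S.card : ℤ) : ℝ) * g S q, ?_, fun q hq => ?_⟩
  · exact Dual.sum _ _ _ fun S _ => (Dual.const _).mul (hfg S)
  · -- indicator identity
    have ind : ∀ x : β → ℕ, ∑ S : Finset β, (((-1) ^ S.card : ℤ) : ℝ) *
        (if x ∈ Set.range (dil S) then (1 : ℝ) else 0) = if (∀ b, Odd (x b)) then 1 else 0 := by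
      intro x
      have e1 : ∀ S : Finset β, (if x ∈ Set.range (dil S) then (1 : ℝ) else 0) =
          ∏ b ∈ S, (if Even (x b) then (1 : ℝ) else 0) := by
        intro S
        by_cases h : x ∈ Set.range (dil S)
        · rw [if_pos h]
          symm
          apply Finset.prod_eq_one
          intro b hb
          obtain ⟨M, rfl⟩ := h
          rw [if_pos]
          unfold dil
          rw [if_pos hb]
          exact even_two_mul _
        · rw [if_neg h]
          symm
          have : ∃ b ∈ S, ¬ Even (x b) := by
            by_contra hcon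
            push Not at hcon
            apply h
            refine ⟨fun b => if b ∈ S then x b / 2 else x b, ?_⟩
            funext b
            unfold dil
            by_cases hb : b ∈ S
            · simp only [hb, if_true]
              obtain ⟨t, ht⟩ := hcon b hb
              omega
            · simp only [hb, if_false]
          obtain ⟨b, hb, hb2⟩ := this
          exact Finset.prod_eq_zero hb (if_neg hb2)
      simp_rw [e1]
      have e2 := Finset.prod_add (fun b : β => -(if Even (x b) then (1 : ℝ) else 0))
        (fun _ => (1 : ℝ)) Finset.univ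
      simp only [Finset.prod_const_one, mul_one, Finset.powerset_univ] at e2
      have e3 : ∀ S : Finset β, ∏ b ∈ S, -(if Even (x b) then (1 : ℝ) else 0) =
          (((-1) ^ S.card : ℤ) : ℝ) * ∏ b ∈ S, (if Even (x b) then (1 : ℝ) else 0) := by
        intro S
        rw [Finset.prod_neg]
        push_cast
        rfl
      simp_rw [e3] at e2
      rw [← e2]
      by_cases h : ∀ b, Odd (x b)
      · rw [if_pos h]
        apply Finset.prod_eq_one
        intro b _
        rw [if_neg (Nat.not_even_iff_odd.2 (h b))]
        ring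
      · rw [if_neg h]
        push Not at h
        obtain ⟨b, hb⟩ := h
        apply Finset.prod_eq_zero (Finset.mem_univ b)
        rw [if_pos (Nat.not_odd_iff_even.1 hb)]
        ring
    -- the sums over all vectors
    have hall : ∀ S : Finset β, HasSum (fun x : β → ℕ =>
        (if x ∈ Set.range (dil S) then (1 : ℝ) else 0) * q ^ (-L x)) (f S q) := by
      intro S
      have h1 := ((hs S) q hq).1
      rw [← (dil_injective S).hasSum_iff (f := fun x : β → ℕ =>
        (if x ∈ Set.range (dil S) then (1 : ℝ) else 0) * q ^ (-L x))]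
      · convert h1 using 1
        funext M
        simp only [Function.comp]
        rw [if_pos (Set.mem_range_self M), one_mul]
      · intro x hx
        rw [if_neg hx, zero_mul]
    have hpos' : ∀ S : Finset β, HasSum (fun x : β → ℕ =>
        (if x ∈ Set.range (dil S) ∧ (∀ b, 0 < x b) then (1 : ℝ) else 0) * q ^ (-L x))
        ((-1) ^ Fintype.card β * g S q) := by
      intro S
      have h1 := ((hs S) q hq).2
      have hinj : Function.Injective (fun M : {M : β → ℕ // ∀ b, 0 < M b} => dil S M.1) := by
        intro M M' h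
        exact Subtype.ext (dil_injective S h)
      rw [← hinj.hasSum_iff (f := fun x : β → ℕ =>
        (if x ∈ Set.range (dil S) ∧ (∀ b, 0 < x b) then (1 : ℝ) else 0) * q ^ (-L x))]
      · convert h1 using 1
        funext M
        simp only [Function.comp]
        rw [if_pos, one_mul]
        refine ⟨Set.mem_range_self _, fun b => ?_⟩
        have := M.2 b
        unfold dil
        split_ifs <;> omega
      · intro x hx
        rw [if_neg, zero_mul]
        rintro ⟨⟨M, rfl⟩, h0⟩
        apply hx
        refine ⟨⟨M, fun b => ?_⟩, rfl⟩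
        have := h0 b
        unfold dil at this
        split_ifs at this <;> omega
    have hodd : Function.Injective (Subtype.val : {M : β → ℕ // ∀ b, Odd (M b)} → (β → ℕ)) :=
      Subtype.val_injective
    have key : ∀ a : ℝ, HasSum (fun x : β → ℕ =>
        (if (∀ b, Odd (x b)) then (1 : ℝ) else 0) * q ^ (-L x)) a →
        HasSum (fun M : {M : β → ℕ // ∀ b, Odd (M b)} => q ^ (-L M.1)) a := by
      intro a h
      rw [← hodd.hasSum_iff] at h
      · convert h using 1
        funext M
        simp only [Function.comp]
        rw [if_pos M.2, one_mul]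
      · intro x hx
        rw [if_neg, zero_mul]
        intro h2
        exact hx ⟨⟨x, h2⟩, rfl⟩
    have h1 : HasSum (fun x : β → ℕ =>
        (if (∀ b, Odd (x b)) then (1 : ℝ) else 0) * q ^ (-L x))
        (∑ S : Finset β, (((-1) ^ S.card : ℤ) : ℝ) * f S q) := by
      have := hasSum_sum (s := (Finset.univ : Finset (Finset β))) fun S _ =>
        (hall S).mul_left (((-1) ^ S.card : ℤ) : ℝ)
      have hfun : (fun x : β → ℕ =>
          (if (∀ b, Odd (x b)) then (1 : ℝ) else 0) * q ^ (-L x)) =
          fun x => ∑ S : Finset β, (((-1) ^ S.card : ℤ) : ℝ) *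
            ((if x ∈ Set.range (dil S) then (1 : ℝ) else 0) * q ^ (-L x)) := by
        funext x
        rw [← ind x, Finset.sum_mul]
        exact Finset.sum_congr rfl fun S _ => by ring
      rw [hfun]
      exact this
    have h2 : HasSum (fun x : β → ℕ =>
        (if (∀ b, Odd (x b)) then (1 : ℝ) else 0) * q ^ (-L x))
        ((-1) ^ Fintype.card β * ∑ S : Finset β, (((-1) ^ S.card : ℤ) : ℝ) * g S q) := by
      have := hasSum_sum (s := (Finset.univ : Finset (Finset β))) fun S _ =>
        (hpos' S).mul_left (((-1) ^ S.card : ℤ) : ℝ)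
      have e0 : (-1) ^ Fintype.card β * ∑ S : Finset β, (((-1) ^ S.card : ℤ) : ℝ) * g S q =
          ∑ S : Finset β, (((-1) ^ S.card : ℤ) : ℝ) * ((-1) ^ Fintype.card β * g S q) := by
        rw [Finset.mul_sum]
        exact Finset.sum_congr rfl fun S _ => by ring
      rw [e0]
      have hfun : (fun x : β → ℕ =>
          (if (∀ b, Odd (x b)) then (1 : ℝ) else 0) * q ^ (-L x)) =
          fun x => ∑ S : Finset β, (((-1) ^ S.card : ℤ) : ℝ) *
            ((if x ∈ Set.range (dil S) ∧ (∀ b, 0 < x b) then (1 : ℝ) else 0) * q ^ (-L x)) := by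
        funext x
        have e : (if (∀ b, Odd (x b)) then (1 : ℝ) else 0) =
            (if (∀ b, Odd (x b)) then (1 : ℝ) else 0) * (if (∀ b, 0 < x b) then 1 else 0) := by
          by_cases h : ∀ b, Odd (x b)
          · rw [if_pos h, if_pos fun b => (h b).pos, one_mul]
          · rw [if_neg h, zero_mul]
        rw [e, ← ind x, Finset.sum_mul, Finset.sum_mul]
        refine Finset.sum_congr rfl fun S _ => ?_
        by_cases h3 : x ∈ Set.range (dil S) <;> by_cases h4 : ∀ b, 0 < x b <;> simp [h3, h4]
      rw [hfun]
      exact this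
    exact ⟨key _ h1, h1.unique h2⟩

end Pool.Agent.WP
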