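import Pool.Agent.Helper12.WP.Zdual

/-! # The sums over the torsors with given kernel are self-dual -/

namespace Pool.Agent.WP

open Pool.Agent.WD Finset
open scoped ENNReal

variable {p : ℕ} [Fact p.Prime] {N : ℕ} {D : Type} [AddCommGroup D]

/-- the characters that are trivial on the image of the torsor `f` -/
def kerF {k : Type} [Field k] (f : Par p N D k) : AddSubgroup D where
  carrier := {ψ | ∀ i, f.1 i ψ = 0}
  add_mem' := by
    intro a b ha hb i
    rw [map_add, ha i, hb i, add_zero]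
  zero_mem' := fun i => map_zero _
  neg_mem' := by
    intro a ha i
    rw [map_neg, ha i, neg_zero]

theorem sw_eq_zero_iff {k : Type} [Field k] (f : Par p N D k) (ψ : D) :
    sw f ψ = 0 ↔ ψ ∈ kerF f := by
  rw [← Nat.le_zero, sw_le_iff]
  constructor
  · intro h i
    by_cases hi : p ∣ i
    · rw [f.2 i hi]; rfl
    · rcases Nat.eq_zero_or_pos N with hN | hN
      · apply TruncatedWittVector.ext
        intro j
        exact absurd j.2 (by omega)
      · have h1 := h i 0 hN (by
          rw [pow_zero, mul_one]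
          rcases Nat.eq_zero_or_pos i with h0 | h0
          · exact absurd (h0 ▸ dvd_zero p) hi
          · exact h0)
        rwa [pow_zero, one_nsmul] at h1
  · intro h i e _ _
    rw [h i, smul_zero]

variable [Fintype D] [DecidableEq D]

/-- the weight of a torsor -/
noncomputable def wt (mult : D → ℕ) {k : Type} [Field k] [Fintype k] (f : Par p N D k) : ℝ≥0∞ :=
  ENNReal.ofReal (zk k ^ (-(2 * ∑ ψ : D, (mult ψ : ℤ) * sw f ψ)))

open Classical in
noncomputable def SK (p N : ℕ) [Fact p.Prime] {D : Type} [AddCommGroup D] [Fintype D]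
    (mult : D → ℕ) (K : AddSubgroup D) (k : Type) [Field k] [Fintype k] : ℝ≥0∞ :=
  ∑' f : Par p N D k, if kerF f = K then wt mult f else 0

theorem ZK_eq_sum [Fintype (AddSubgroup D)] (mult : D → ℕ) (K : AddSubgroup D)
    [Fintype {ψ : D // ψ ∉ K ∧ 0 < mult ψ}]
    (k : Type) [Field k] [Fintype k] :
    ZK p N K (fun b : {ψ : D // ψ ∉ K ∧ 0 < mult ψ} => b.1) (fun b => mult b.1) k =
      ∑ K' : AddSubgroup D, (open Classical in if K ≤ K' then SK p N mult K' k else 0) := by
  classical
  have h1 : ZK p N K (fun b : {ψ : D // ψ ∉ K ∧ 0 < mult ψ} => b.1) (fun b => mult b.1) k =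
      ∑' f : Par p N D k, if K ≤ kerF f then wt mult f else 0 := by
    unfold ZK
    have h2 : ∀ f : {f : Par p N D k // ∀ i, ∀ x ∈ K, f.1 i x = 0},
        ENNReal.ofReal (zk k ^ (-(2 * ∑ b : {ψ : D // ψ ∉ K ∧ 0 < mult ψ},
          (mult b.1 : ℤ) * sw f.1 b.1))) = wt mult f.1 := by
      intro f
      unfold wt
      have h4 : ∑ b : {ψ : D // ψ ∉ K ∧ 0 < mult ψ}, (mult b.1 : ℤ) * sw f.1 b.1 =
          ∑ ψ : D, (mult ψ : ℤ) * sw f.1 ψ := by
        rw [← Finset.sum_filter_of_ne (s := univ) (p := fun ψ : D => ψ ∉ K ∧ 0 < mult ψ)]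
        · exact (Finset.sum_subtype (univ.filter fun ψ : D => ψ ∉ K ∧ 0 < mult ψ)
            (fun ψ => by rw [mem_filter]; exact ⟨fun h => h.2, fun h => ⟨mem_univ _, h⟩⟩)
            (fun ψ => (mult ψ : ℤ) * sw f.1 ψ)).symm
        · intro ψ _ hψ
          constructor
          · intro hK
            apply hψ
            have h5 : sw f.1 ψ = 0 := (sw_eq_zero_iff f.1 ψ).2 fun i => f.2 i ψ hK
            rw [h5, Nat.cast_zero, mul_zero]
          · rcases Nat.eq_zero_or_pos (mult ψ) with h0 | h0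
            · exfalso
              apply hψ
              rw [h0, Nat.cast_zero, zero_mul]
            · exact h0
      rw [h4]
    rw [tsum_congr h2]
    have h5 : ∑' f : {f : Par p N D k // ∀ i, ∀ x ∈ K, f.1 i x = 0}, wt mult f.1 =
        ∑' f : {f : Par p N D k | ∀ i, ∀ x ∈ K, f.1 i x = 0}, wt mult f.1 := rfl
    rw [h5, tsum_subtype {f : Par p N D k | ∀ i, ∀ x ∈ K, f.1 i x = 0} (wt mult)]
    refine tsum_congr fun f => ?_
    rw [Set.indicator_apply]
    have h6 : f ∈ {f : Par p N D k | ∀ i, ∀ x ∈ K, f.1 i x = 0} ↔ K ≤ kerF f :=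
      ⟨fun h x hx i => h i x hx, fun h i x hx => h hx i⟩
    by_cases h7 : K ≤ kerF f
    · rw [if_pos h7, if_pos (h6.2 h7)]
    · rw [if_neg h7, if_neg fun h => h7 (h6.1 h)]
  rw [h1]
  have h3 : ∀ f : Par p N D k, (if K ≤ kerF f then wt mult f else 0) =
      ∑ K' : AddSubgroup D, if K ≤ K' then (if kerF f = K' then wt mult f else 0) else 0 := by
    intro f
    rw [Finset.sum_eq_single (kerF f)]
    · rw [if_pos rfl]
    · intro K' _ hK'
      rw [if_neg (Ne.symm hK')]
      split_ifs <;> rfl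
    · intro h
      exact absurd (mem_univ _) h
  simp_rw [h3]
  rw [Summable.tsum_finsetSum fun _ _ => ENNReal.summable]
  refine Finset.sum_congr rfl fun K' _ => ?_
  by_cases h : K ≤ K'
  · simp only [if_pos h]
    rfl
  · simp only [if_neg h, tsum_zero]

/-- All the sums `S_K` are self-dual. -/
theorem SK_dual (hD : ∀ x : D, p ^ N • x = 0) (mult : D → ℕ)
    (hfin : ∃ (k : Type) (_ : Field k) (_ : Fintype k) (_ : CharP k p),
      ∀ K, SK p N mult K k ≠ ⊤) (K : AddSubgroup D) :
    ∃ s : ℝ → ℝ, Dual s s ∧ ∀ (k : Type) [Field k] [Fintype k] [CharP k p],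
      SK p N mult K k ≠ ⊤ ∧ (SK p N mult K k).toReal = s (zk k) := by
  classical
  have hft : Fintype (AddSubgroup D) := Fintype.ofFinite _
  induction K using (wellFounded_gt (α := AddSubgroup D)).induction with
  | _ K ih =>
    have hZ : ∃ s : ℝ → ℝ, Dual s s ∧ ∀ (k : Type) [Field k] [Fintype k] [CharP k p],
        ZK p N K (fun b : {ψ : D // ψ ∉ K ∧ 0 < mult ψ} => b.1) (fun b => mult b.1) k ≠ ⊤ ∧
        (ZK p N K (fun b : {ψ : D // ψ ∉ K ∧ 0 < mult ψ} => b.1)
          (fun b => mult b.1) k).toReal = s (zk k) := by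
      obtain ⟨k, i1, i2, i3, hk⟩ := hfin
      have h0 : ZK p N K (fun b : {ψ : D // ψ ∉ K ∧ 0 < mult ψ} => b.1)
          (fun b => mult b.1) k ≠ ⊤ := by
        rw [ZK_eq_sum]
        apply ENNReal.sum_ne_top.2
        intro K' _
        split_ifs
        · exact hk K'
        · exact ENNReal.zero_ne_top
      apply ZK_dual hD K _ _ (fun b => b.2.2)
      · by_contra hgen
        exact h0 (ZK_eq_top hD K _ _ hgen k)
      · exact ⟨k, i1, i2, i3, h0⟩
    obtain ⟨sZ, hsZ, hZ2⟩ := hZ
    have ih' : ∀ K' : AddSubgroup D, ∃ s : ℝ → ℝ, Dual s s ∧ (K < K' →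
        ∀ (k : Type) [Field k] [Fintype k] [CharP k p],
        SK p N mult K' k ≠ ⊤ ∧ (SK p N mult K' k).toReal = s (zk k)) := by
      intro K'
      by_cases h : K < K'
      · obtain ⟨s, h1, h2⟩ := ih K' h
        exact ⟨s, h1, fun _ => h2⟩
      · exact ⟨fun _ => ((0 : ℤ) : ℝ), Dual.const 0, fun h2 => absurd h2 h⟩
    choose s hs1 hs2 using ih'
    refine ⟨fun z => sZ z + ((-1 : ℤ) : ℝ) *
      ∑ K' ∈ univ.filter (fun K' : AddSubgroup D => K < K'), s K' z, ?_, fun k _ _ _ => ?_⟩
    · exact hsZ.add ((Dual.const (-1)).mul (Dual.sum _ _ _ fun K' _ => hs1 K'))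
    · have h1 := ZK_eq_sum (p := p) (N := N) mult K k
      have h2 : ∑ K' : AddSubgroup D, (if K ≤ K' then SK p N mult K' k else 0) =
          SK p N mult K k +
            ∑ K' ∈ univ.filter (fun K' : AddSubgroup D => K < K'), SK p N mult K' k := by
        rw [Finset.sum_filter, ← Finset.sum_ite_eq' univ K (fun K' => SK p N mult K' k) |>.trans
          (if_pos (mem_univ K)), ← Finset.sum_add_distrib]
        refine Finset.sum_congr rfl fun K' _ => ?_
        by_cases h3 : K' = K
        · subst h3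
          simp
        · by_cases h4 : K < K'
          · rw [if_pos h4.le, if_neg h3, if_pos h4, zero_add]
          · rw [if_neg fun h5 => h4 (lt_of_le_of_ne h5 (Ne.symm h3)), if_neg h3, if_neg h4,
              zero_add]
      rw [h2] at h1
      obtain ⟨h3, h4⟩ := hZ2 k
      rw [h1] at h3 h4
      have h5 : SK p N mult K k ≠ ⊤ := fun h => h3 (by rw [h, top_add])
      have h6 : ∑ K' ∈ univ.filter (fun K' : AddSubgroup D => K < K'), SK p N mult K' k ≠ ⊤ :=
        fun h => h3 (by rw [h, add_top])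
      refine ⟨h5, ?_⟩
      rw [ENNReal.toReal_add h5 h6, ENNReal.toReal_sum] at h4
      · change _ = sZ (zk k) + ((-1 : ℤ) : ℝ) *
          ∑ K' ∈ univ.filter (fun K' : AddSubgroup D => K < K'), s K' (zk k)
        rw [← h4]
        have h7 : ∑ K' ∈ univ.filter (fun K' : AddSubgroup D => K < K'), s K' (zk k) =
            ∑ K' ∈ univ.filter (fun K' : AddSubgroup D => K < K'),
              (SK p N mult K' k).toReal :=
          Finset.sum_congr rfl fun K' hK' => (hs2 K' (mem_filter.1 hK').2 k).2.symm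
        rw [h7]
        push_cast
        ring
      · intro K' hK'
        exact (hs2 K' (mem_filter.1 hK').2 k).1

end Pool.Agent.WP
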