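import Pool.Agent.Helper12.WP.Count
import Pool.Agent.Helper12.WP.Geo
import Pool.Agent.Helper12.WP.Conv
import Pool.Agent.Helper12.WP.Odd

/-! # The sum over all torsors of a subgroup is self-dual -/

namespace Pool.Agent.WP

open Pool.Agent.WD Finset
open scoped ENNReal

/-- `q^(1/4)` -/
noncomputable def zk (k : Type) [Fintype k] : ℝ := (Fintype.card k : ℝ) ^ (1 / 4 : ℝ)

theorem one_lt_zk (k : Type) [Field k] [Fintype k] : 1 < zk k := by
  unfold zk
  apply Real.one_lt_rpow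
  · exact_mod_cast Fintype.one_lt_card
  · norm_num

theorem zk_pow_four (k : Type) [Field k] [Fintype k] : zk k ^ 4 = Fintype.card k := by
  unfold zk
  rw [← Real.rpow_natCast, ← Real.rpow_mul (by positivity)]
  norm_num

theorem prod_zpow_sum {β : Type} {z : ℝ} (hz : z ≠ 0) (s : Finset β) (f : β → ℤ) :
    ∏ b ∈ s, z ^ f b = z ^ ∑ b ∈ s, f b := by
  classical
  induction s using Finset.induction_on with
  | empty => simp
  | insert a s ha ih => rw [prod_insert ha, sum_insert ha, zpow_add₀ hz, ih]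

variable {p : ℕ} [Fact p.Prime] {N : ℕ} {D : Type} [AddCommGroup D] {β : Type} [Fintype β]
  [DecidableEq β]

/-- the sum over the torsors whose characters in `K` are trivial -/
noncomputable def ZK (p N : ℕ) [Fact p.Prime] {D : Type} [AddCommGroup D] {β : Type} [Fintype β]
    (K : AddSubgroup D) (ψ : β → D) (m : β → ℕ) (k : Type) [Field k] [Fintype k] : ℝ≥0∞ :=
  ∑' f : {f : Par p N D k // ∀ i, ∀ x ∈ K, f.1 i x = 0},
    ENNReal.ofReal (zk k ^ (-(2 * ∑ b, (m b : ℤ) * sw f.1 (ψ b))))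

/-- the exponent -/
noncomputable def LL (p N : ℕ) {D : Type} [AddCommGroup D] (K : AddSubgroup D) (ψ : β → D)
    (m : β → ℕ) (x : β → ℕ) : ℤ :=
  ∑ b, (m b : ℤ) * x b - 2 * mu p N (fun C => (lamK p K ψ C : ℤ)) x

theorem ZK_eq [Finite D] (hD : ∀ x : D, p ^ N • x = 0) (K : AddSubgroup D) (ψ : β → D)
    (m : β → ℕ) (hgen : K ⊔ AddSubgroup.closure (Set.range ψ) = ⊤)
    (k : Type) [Field k] [Fintype k] [CharP k p] :
    ∑' x : {x : β → ℕ // ∀ b, Odd (x b)},
      ENNReal.ofReal (zk k ^ (∑ b, (m b : ℤ)) * zk k ^ (-LL p N K ψ m x.1)) =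
      ZK p N K ψ m k * ∏ b, (1 - ENNReal.ofReal (zk k ^ (-(2 * (m b : ℤ)))))⁻¹ := by
  have hz := one_lt_zk k
  have hz0 : 0 < zk k := by linarith
  have h1 := tsum_bound (F := {f : Par p N D k // ∀ i, ∀ x ∈ K, f.1 i x = 0})
    (fun b => ENNReal.ofReal (zk k ^ (-(2 * (m b : ℤ))))) (fun f b => sw f.1 (ψ b))
    (fun M => Fintype.card k ^ ∑ i ∈ (range (tot (fun b => 2 * M b + 1) + 1)).filter
      fun i => ¬ p ∣ i, lamK p K ψ (Clt p N (fun b => 2 * M b + 1) i))
    (fun M => by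
      rw [← card_Par hD K ψ hgen M]
      exact Nat.card_congr (Equiv.subtypeSubtypeEquivSubtypeInter
        (fun f : Par p N D k => ∀ i, ∀ x ∈ K, f.1 i x = 0) (fun f => ∀ b, sw f (ψ b) ≤ M b)))
    (fun M => by positivity)
  have h2 : ∀ f : {f : Par p N D k // ∀ i, ∀ x ∈ K, f.1 i x = 0},
      ∏ b, ENNReal.ofReal (zk k ^ (-(2 * (m b : ℤ)))) ^ sw f.1 (ψ b) =
      ENNReal.ofReal (zk k ^ (-(2 * ∑ b, (m b : ℤ) * sw f.1 (ψ b)))) := by
    intro f
    have h3 : ∀ b, ENNReal.ofReal (zk k ^ (-(2 * (m b : ℤ)))) ^ sw f.1 (ψ b) =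
        ENNReal.ofReal (zk k ^ (-(2 * ((m b : ℤ) * sw f.1 (ψ b))))) := by
      intro b
      rw [← ENNReal.ofReal_pow (zpow_nonneg hz0.le _), ← zpow_natCast, ← zpow_mul]
      congr 2
      ring
    rw [Finset.prod_congr rfl fun b _ => h3 b,
      ← ENNReal.ofReal_prod_of_nonneg fun b _ => zpow_nonneg hz0.le _]
    congr 1
    rw [Finset.mul_sum, ← Finset.sum_neg_distrib]
    exact prod_zpow_sum hz0.ne' _ _
  unfold ZK
  rw [← tsum_congr h2, ← h1]
  let e : (β → ℕ) ≃ {x : β → ℕ // ∀ b, Odd (x b)} :=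
    { toFun := fun M => ⟨fun b => 2 * M b + 1, fun b => odd_two_mul_add_one _⟩
      invFun := fun x b => (x.1 b - 1) / 2
      left_inv := fun M => by
        funext b
        simp only
        omega
      right_inv := fun x => by
        apply Subtype.ext
        funext b
        obtain ⟨t, ht⟩ := x.2 b
        simp only
        omega }
  rw [← e.tsum_eq]
  refine tsum_congr fun M => ?_
  change ENNReal.ofReal (zk k ^ (∑ b, (m b : ℤ)) * zk k ^ (-LL p N K ψ m fun b => 2 * M b + 1)) = _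
  have h4 : (∏ b, ENNReal.ofReal (zk k ^ (-(2 * (m b : ℤ)))) ^ M b) =
      ENNReal.ofReal (zk k ^ (-(2 * ∑ b, (m b : ℤ) * M b))) := by
    have h3 : ∀ b, ENNReal.ofReal (zk k ^ (-(2 * (m b : ℤ)))) ^ M b =
        ENNReal.ofReal (zk k ^ (-(2 * ((m b : ℤ) * M b)))) := by
      intro b
      rw [← ENNReal.ofReal_pow (zpow_nonneg hz0.le _), ← zpow_natCast, ← zpow_mul]
      congr 2
      ring
    rw [Finset.prod_congr rfl fun b _ => h3 b,
      ← ENNReal.ofReal_prod_of_nonneg fun b _ => zpow_nonneg hz0.le _]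
    congr 1
    rw [Finset.mul_sum, ← Finset.sum_neg_distrib]
    exact prod_zpow_sum hz0.ne' _ _
  rw [h4]
  have h5 : ((Fintype.card k ^ ∑ i ∈ (range (tot (fun b => 2 * M b + 1) + 1)).filter
      fun i => ¬ p ∣ i, lamK p K ψ (Clt p N (fun b => 2 * M b + 1) i) : ℕ) : ℝ≥0∞) =
      ENNReal.ofReal (zk k ^ (4 * ∑ i ∈ (range (tot (fun b => 2 * M b + 1) + 1)).filter
      fun i => ¬ p ∣ i, (lamK p K ψ (Clt p N (fun b => 2 * M b + 1) i) : ℤ))) := by
    rw [zpow_mul, zpow_ofNat, zk_pow_four, ← Nat.cast_sum, zpow_natCast,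
      ← Nat.cast_pow, ENNReal.ofReal_natCast]
  rw [h5, ← ENNReal.ofReal_mul (zpow_nonneg hz0.le _), ← zpow_add₀ hz0.ne',
    ← zpow_add₀ hz0.ne']
  congr 2
  unfold LL mu
  have h6 : ∀ i, Cle p N (fun b => 2 * M b + 1) i = Clt p N (fun b => 2 * M b + 1) i := by
    intro i
    ext c
    simp only [Cle, Clt, mem_filter, mem_univ, true_and]
    have e1 : i * (2 * p ^ (c.2 : ℕ)) = 2 * (i * p ^ (c.2 : ℕ)) := by ring
    omega
  simp only [h6]
  have h7 : ∑ b, (m b : ℤ) * ((2 * M b + 1 : ℕ) : ℤ) =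
      2 * ∑ b, (m b : ℤ) * (M b : ℤ) + ∑ b, (m b : ℤ) := by
    rw [Finset.mul_sum, ← Finset.sum_add_distrib]
    exact Finset.sum_congr rfl fun b _ => by push_cast; ring
  rw [h7]
  have h8 : ∑ i ∈ (range (tot (fun b => 2 * M b + 1) + 1)).filter (fun i => ¬ p ∣ i),
      ((lamK p K ψ (Clt p N (fun b => 2 * M b + 1) i) : ℤ) +
        (lamK p K ψ (Clt p N (fun b => 2 * M b + 1) i) : ℤ)) =
      2 * ∑ i ∈ (range (tot (fun b => 2 * M b + 1) + 1)).filter (fun i => ¬ p ∣ i),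
        (lamK p K ψ (Clt p N (fun b => 2 * M b + 1) i) : ℤ) := by
    rw [Finset.mul_sum]
    exact Finset.sum_congr rfl fun b _ => by ring
  rw [h8]
  ring

end Pool.Agent.WP
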