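import Pool.Agent.Helper12.WP.Zall

/-! # Self-duality of the sum over all torsors of a subgroup -/

namespace Pool.Agent.WP

open Pool.Agent.WD Finset
open scoped ENNReal

variable {p : ℕ} [Fact p.Prime] {N : ℕ} {D : Type} [AddCommGroup D] {β : Type} [Fintype β]
  [DecidableEq β]

theorem one_sub_ne_zero {z : ℝ} (hz : 1 < z) {m : ℕ} (hm : 0 < m) :
    ENNReal.ofReal (z ^ (-(2 * (m : ℤ)))) < 1 := by
  rw [ENNReal.ofReal_lt_one]
  apply zpow_lt_one_of_neg₀ hz
  omega

theorem ZK_dual [Finite D] (hD : ∀ x : D, p ^ N • x = 0) (K : AddSubgroup D) (ψ : β → D)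
    (m : β → ℕ) (hm : ∀ b, 0 < m b) (hgen : K ⊔ AddSubgroup.closure (Set.range ψ) = ⊤)
    (hfin : ∃ (k : Type) (_ : Field k) (_ : Fintype k) (_ : CharP k p), ZK p N K ψ m k ≠ ⊤) :
    ∃ s : ℝ → ℝ, Dual s s ∧ ∀ (k : Type) [Field k] [Fintype k] [CharP k p],
      ZK p N K ψ m k ≠ ⊤ ∧ (ZK p N K ψ m k).toReal = s (zk k) := by
  have hpp : 0 < p := (Fact.out : p.Prime).pos
  have hPW := pw_thr (β := β) p N hpp (fun C => (lamK p K ψ C : ℤ))
    (by rw [lamK_univ hD K ψ hgen]; rfl) (fun b => (m b : ℤ))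
  have hLL : (fun x : β → ℕ => ∑ b, (m b : ℤ) * x b -
      2 * mu p N (fun C => (lamK p K ψ C : ℤ)) x) = LL p N K ψ m := rfl
  rw [hLL] at hPW
  have hfactor : ∀ (k : Type) [Field k] [Fintype k],
      (∏ b, (1 - ENNReal.ofReal (zk k ^ (-(2 * (m b : ℤ)))))⁻¹) ≠ ⊤ := by
    intro k _ _
    apply ENNReal.prod_ne_top
    intro b _
    rw [ne_eq, ENNReal.inv_eq_top]
    have := one_sub_ne_zero (one_lt_zk k) (hm b)
    exact (tsub_pos_of_lt this).ne'
  have hpos : ∀ M : β → ℕ, M ≠ 0 → 0 < LL p N K ψ m ((2 * p ^ (N + 1)) • M) := by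
    obtain ⟨k, i1, i2, i3, hk⟩ := hfin
    have h1 := ZK_eq hD K ψ m hgen k
    have hz := one_lt_zk k
    have hz0 : 0 < zk k := by linarith
    have h2 : ∑' x : {x : β → ℕ // ∀ b, Odd (x b)},
      ENNReal.ofReal (zk k ^ (∑ b, (m b : ℤ)) * zk k ^ (-LL p N K ψ m x.1)) ≠ ⊤ := by
      rw [h1]
      exact ENNReal.mul_ne_top hk (hfactor k)
    have h3 := ENNReal.summable_toReal h2
    have h4 : Summable fun x : {x : β → ℕ // ∀ b, Odd (x b)} =>
        zk k ^ (-LL p N K ψ m x.1) := by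
      have h5 := h3.mul_left (zk k ^ (∑ b, (m b : ℤ)))⁻¹
      refine h5.congr fun x => ?_
      rw [ENNReal.toReal_ofReal (mul_nonneg (zpow_nonneg hz0.le _) (zpow_nonneg hz0.le _)),
        inv_mul_cancel_left₀ (zpow_ne_zero _ hz0.ne')]
    exact fun M hM => pos_of_summable _ _ _ hPW ⟨p ^ (N + 1), by ring⟩ _ hz h4 M hM
  obtain ⟨f, g, hfg, hs⟩ := odd_reciprocity _ _ _ hPW hpos
  have hd1 : Dual (fun z => ∏ b : β, (z ^ (m b : ℤ) + ((-1 : ℤ) : ℝ) * z ^ (-(m b : ℤ))))
      (fun z => ∏ b : β, (z ^ (-(m b : ℤ)) + ((-1 : ℤ) : ℝ) * z ^ (-(-(m b : ℤ))))) := by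
    apply Dual.prod
    intro b _
    exact (Dual.zpow _).add ((Dual.const (-1)).mul (Dual.zpow _))
  refine ⟨fun z => (∏ b : β, (z ^ (m b : ℤ) + ((-1 : ℤ) : ℝ) * z ^ (-(m b : ℤ)))) * f z,
    (hd1.mul hfg).congr (fun _ _ => rfl) ?_, fun k _ _ _ => ?_⟩
  · intro z hz
    have h1 : ∏ b : β, (z ^ (-(m b : ℤ)) + ((-1 : ℤ) : ℝ) * z ^ (-(-(m b : ℤ)))) =
        (-1) ^ Fintype.card β *
          ∏ b : β, (z ^ (m b : ℤ) + ((-1 : ℤ) : ℝ) * z ^ (-(m b : ℤ))) := by
      rw [← Finset.card_univ, ← Finset.prod_const, ← Finset.prod_mul_distrib]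
      refine Finset.prod_congr rfl fun b _ => ?_
      rw [neg_neg]
      push_cast
      ring
    rw [h1, (hs z hz).2]
    have h2 : ((-1 : ℝ) ^ Fintype.card β) * ((-1 : ℝ) ^ Fintype.card β) = 1 := by
      rw [← mul_pow]
      norm_num
    ring
  · have hz := one_lt_zk k
    have hz0 : 0 < zk k := by linarith
    have h1 := ZK_eq hD K ψ m hgen k
    have h2 := (hs (zk k) hz).1.mul_left (zk k ^ (∑ b, (m b : ℤ)))
    have h3 : ∑' x : {x : β → ℕ // ∀ b, Odd (x b)},
      ENNReal.ofReal (zk k ^ (∑ b, (m b : ℤ)) * zk k ^ (-LL p N K ψ m x.1)) =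
      ENNReal.ofReal (zk k ^ (∑ b, (m b : ℤ)) * f (zk k)) := by
      rw [← h2.tsum_eq]
      exact (ENNReal.ofReal_tsum_of_nonneg
        (fun x => mul_nonneg (zpow_nonneg hz0.le _) (zpow_nonneg hz0.le _)) h2.summable).symm
    rw [h3] at h1
    have hf0 : 0 ≤ f (zk k) := (hs (zk k) hz).1.nonneg fun x => zpow_nonneg hz0.le _
    have h4 : ZK p N K ψ m k = ENNReal.ofReal
        ((∏ b : β, (1 - zk k ^ (-(2 * (m b : ℤ))))) * (zk k ^ (∑ b, (m b : ℤ)) * f (zk k))) := by
      rw [ENNReal.ofReal_mul, h1, ENNReal.ofReal_prod_of_nonneg]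
      · have h5 : ∀ b : β, ENNReal.ofReal (1 - zk k ^ (-(2 * (m b : ℤ)))) =
            1 - ENNReal.ofReal (zk k ^ (-(2 * (m b : ℤ)))) := by
          intro b
          rw [ENNReal.ofReal_sub _ (zpow_nonneg hz0.le _), ENNReal.ofReal_one]
        rw [Finset.prod_congr rfl fun b _ => h5 b, mul_comm, mul_assoc,
          ← Finset.prod_mul_distrib]
        rw [Finset.prod_eq_one, mul_one]
        intro b _
        have h6 := one_sub_ne_zero hz (hm b)
        apply ENNReal.inv_mul_cancel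
        · exact (tsub_pos_of_lt h6).ne'
        · exact (lt_of_le_of_lt tsub_le_self ENNReal.one_lt_top).ne
      · intro b _
        have : zk k ^ (-(2 * (m b : ℤ))) < 1 := zpow_lt_one_of_neg₀ hz (by have := hm b; omega)
        linarith
      · apply Finset.prod_nonneg
        intro b _
        have : zk k ^ (-(2 * (m b : ℤ))) < 1 := zpow_lt_one_of_neg₀ hz (by have := hm b; omega)
        linarith
    refine ⟨by rw [h4]; exact ENNReal.ofReal_ne_top, ?_⟩
    rw [h4, ENNReal.toReal_ofReal]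
    · rw [← mul_assoc]
      congr 1
      rw [← prod_zpow_sum hz0.ne', ← Finset.prod_mul_distrib]
      refine Finset.prod_congr rfl fun b _ => ?_
      have : zk k ^ (-(2 * (m b : ℤ))) * zk k ^ (m b : ℤ) = zk k ^ (-(m b : ℤ)) := by
        rw [← zpow_add₀ hz0.ne']
        congr 1
        ring
      rw [sub_mul, one_mul, this]
      push_cast
      ring
    · apply mul_nonneg
      · apply Finset.prod_nonneg
        intro b _
        have : zk k ^ (-(2 * (m b : ℤ))) < 1 := zpow_lt_one_of_neg₀ hz (by have := hm b; omega)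
        linarith
      · exact mul_nonneg (zpow_nonneg hz0.le _) hf0

/-- the sum diverges if the characters do not generate -/
theorem ZK_eq_top [Finite D] (hD : ∀ x : D, p ^ N • x = 0) (K : AddSubgroup D) (ψ : β → D)
    (m : β → ℕ) (hgen : K ⊔ AddSubgroup.closure (Set.range ψ) ≠ ⊤)
    (k : Type) [Field k] [Fintype k] [CharP k p] : ZK p N K ψ m k = ⊤ := by
  classical
  set K' := K ⊔ AddSubgroup.closure (Set.range ψ) with hK'
  have hN : 0 < N := by
    rcases Nat.eq_zero_or_pos N with h | h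
    · exfalso
      apply hgen
      rw [eq_top_iff]
      intro x _
      have := hD x
      rw [h, pow_zero, one_nsmul] at this
      rw [this]
      exact K'.zero_mem
    · exact h
  have hD' : ∀ x : D ⧸ K', p ^ N • x = 0 := by
    intro x
    induction x using QuotientAddGroup.induction_on with
    | H z =>
      change p ^ N • (QuotientAddGroup.mk' K') z = 0
      rw [← map_nsmul, hD, map_zero]
  -- a nonzero homomorphism that vanishes on `K'`
  have h1 := card_hom (p := p) (N := N) (k := k) (D ⧸ K') hD'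
  have hlen : len p (D ⧸ K') ≠ 0 := by
    intro h0
    have h2 := card_hom (p := p) (N := N) (k := ZMod p) (D ⧸ K') hD'
    rw [h0, pow_zero] at h1
    have hnt : Nontrivial (D ⧸ K') := by
      rw [← not_subsingleton_iff_nontrivial]
      intro hs
      apply hgen
      rw [eq_top_iff]
      intro x _
      have h3 : (QuotientAddGroup.mk' K') x = (QuotientAddGroup.mk' K') 0 := Subsingleton.elim _ _
      rw [map_zero] at h3
      exact (QuotientAddGroup.eq_zero_iff x).1 h3
    have hcard : 1 < Nat.card (D ⧸ K') := Finite.one_lt_card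
    unfold len at h0
    rw [Nat.log_eq_zero_iff] at h0
    rcases h0 with h0 | h0
    · -- the order is divisible by `p`
      obtain ⟨q, hq, hqd⟩ := Nat.exists_prime_and_dvd hcard.ne'
      have hqf : Fact q.Prime := ⟨hq⟩
      obtain ⟨y, hy⟩ := exists_prime_addOrderOf_dvd_card' q hqd
      have h3 : addOrderOf y ∣ p ^ N := addOrderOf_dvd_of_nsmul_eq_zero (hD' y)
      rw [hy] at h3
      have h4 := (Nat.prime_dvd_prime_iff_eq hq (Fact.out : p.Prime)).1 (hq.dvd_of_dvd_pow h3)
      have h5 := Nat.le_of_dvd (by omega) hqd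
      omega
    · exact absurd h0 (not_le.2 (Fact.out : p.Prime).one_lt)
  have h2 : 1 < Nat.card (D ⧸ K' →+ TruncatedWittVector p N k) := by
    rw [h1]
    exact Nat.one_lt_pow hlen Fintype.one_lt_card
  have hfin : Finite (D ⧸ K' →+ TruncatedWittVector p N k) :=
    Nat.finite_of_card_ne_zero (by omega)
  obtain ⟨g, hg⟩ : ∃ g : D ⧸ K' →+ TruncatedWittVector p N k, g ≠ 0 := by
    have : Nontrivial (D ⧸ K' →+ TruncatedWittVector p N k) := Finite.one_lt_card_iff_nontrivial.1 h2
    exact exists_ne 0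
  set G : D →+ TruncatedWittVector p N k := g.comp (QuotientAddGroup.mk' K') with hG
  have hG0 : G ≠ 0 := by
    intro h
    apply hg
    ext x
    have := DFunLike.congr_fun h x
    exact congrArg _ this
  have hGK : ∀ x ∈ K', G x = 0 := by
    intro x hx
    have : QuotientAddGroup.mk' K' x = 0 := (QuotientAddGroup.eq_zero_iff x).2 hx
    rw [hG, AddMonoidHom.comp_apply, this, map_zero]
  -- the torsors `G t^{-(p j + 1)}`
  have hndvd : ∀ j : ℕ, ¬ p ∣ p * j + 1 := by
    intro j hd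
    have h3 : p ∣ 1 := (Nat.dvd_add_right (Dvd.intro j rfl)).1 hd
    exact (Fact.out : p.Prime).one_lt.ne' (Nat.dvd_one.1 h3)
  let F : ℕ → {f : Par p N D k // ∀ i, ∀ x ∈ K, f.1 i x = 0} := fun j =>
    ⟨⟨Finsupp.single (p * j + 1) G, fun i hi => by
      rw [Finsupp.single_apply, if_neg]
      rintro rfl
      exact hndvd j hi⟩, fun i x hx => by
      change (Finsupp.single (p * j + 1) G) i x = 0
      rw [Finsupp.single_apply]
      split_ifs
      · exact hGK x (le_sup_left (a := K) hx)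
      · rfl⟩
  have hF : Function.Injective F := by
    intro j j' h
    have h3 : (Finsupp.single (p * j + 1) G) = Finsupp.single (p * j' + 1) G :=
      congrArg (fun f => f.1.1) h
    have h4 := (Finsupp.single_left_inj hG0).1 h3
    have h5 : p * j = p * j' := by omega
    exact Nat.eq_of_mul_eq_mul_left (Fact.out : p.Prime).pos h5
  have hw : ∀ j, ENNReal.ofReal (zk k ^ (-(2 * ∑ b, (m b : ℤ) * sw (F j).1 (ψ b)))) = 1 := by
    intro j
    have h3 : ∀ b, sw (F j).1 (ψ b) = 0 := by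
      intro b
      rw [← Nat.le_zero, sw_le_iff]
      intro i e _ _
      have h4 : (F j).1.1 i (ψ b) = 0 := by
        change (Finsupp.single (p * j + 1) G) i (ψ b) = 0
        rw [Finsupp.single_apply]
        split_ifs
        · exact hGK _ (le_sup_right (a := K) (AddSubgroup.subset_closure ⟨b, rfl⟩))
        · rfl
      rw [h4, smul_zero]
    simp [h3]
  unfold ZK
  rw [eq_top_iff]
  calc (⊤ : ℝ≥0∞) = ∑' _ : ℕ, 1 := (ENNReal.tsum_const_eq_top_of_ne_zero one_ne_zero).symm
    _ = ∑' j : ℕ, ENNReal.ofReal (zk k ^ (-(2 * ∑ b, (m b : ℤ) * sw (F j).1 (ψ b)))) :=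
        tsum_congr fun j => (hw j).symm
    _ ≤ _ := ENNReal.tsum_comp_le_tsum_of_injective hF _

end Pool.Agent.WP
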